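import Mathlib
import Pool.Agent.helper67.RG.TT

/-!
# MP_2e0e07_nt, project T (ParityCode): definitions of the statement
-/

set_option autoImplicit false

namespace Pool.Agent.TY

open Matrix Polynomial Pool.Agent.GO Pool.Agent.AR Pool.Agent.RG MeasureTheory

section rep

variable {F : Type*} [Field F] {Γ : Type*} [Group Γ] {r : ℕ}

/-- The action of `g` on the polynomials in the variables `x (k, j)`, `k < r`, `j < 2`: the algebra
homomorphism with `x (k, j) ↦ ∑ i, (ρ k g) i j * x (k, i)`, so the row vector `x k` goes to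
`x k * ρ k g`. -/
noncomputable def act (ρ : Fin r → Γ →* Matrix (Fin 2) (Fin 2) F) (g : Γ) :
    MvPolynomial (Fin r × Fin 2) F →ₐ[F] MvPolynomial (Fin r × Fin 2) F :=
  MvPolynomial.aeval fun p => ∑ i, MvPolynomial.C (ρ p.1 g i p.2) * MvPolynomial.X (p.1, i)

/-- The polynomials which for every `k` are homogeneous of degree `e k` in `x (k, 0)`, `x (k, 1)`.
With the action `act ρ` this is the representation `Sym^(e 1) ρ 1 ⊗ ⋯ ⊗ Sym^(e r) ρ r`. -/
def MultiHom (F : Type*) [Field F] {r : ℕ} (e : Fin r → ℕ) :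
    Submodule F (MvPolynomial (Fin r × Fin 2) F) where
  carrier := {p | ∀ m ∈ p.support, ∀ k, m (k, 0) + m (k, 1) = e k}
  add_mem' := by
    classical
    intro p q hp hq m hm
    rcases Finset.mem_union.1 (MvPolynomial.support_add hm) with h | h
    · exact hp m h
    · exact hq m h
  zero_mem' := by
    intro m hm
    simp at hm
  smul_mem' := by
    intro c p hp m hm
    exact hp m (MvPolynomial.support_smul hm)

/-- On an open subgroup `U` the representation `Sym^(e 1) ρ 1 ⊗ ⋯ ⊗ Sym^(e r) ρ r` is a subquotient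
of a finite direct sum of representations `W^{⊗ a} ⊗ (W^∨)^{⊗ b}`, `W` the direct sum of finitely
many of the `V i`: there are a `U`-stable subspace `B` of this direct sum and an equivariant linear
map from `B` onto the space of the representation. -/
def SymArises [TopologicalSpace Γ] {I : Type*} {n : I → ℕ}
    (V : (i : I) → Γ →* Matrix (Fin (n i)) (Fin (n i)) F)
    (ρ : Fin r → Γ →* Matrix (Fin 2) (Fin 2) F) (e : Fin r → ℕ) : Prop :=
  ∃ (U : Subgroup Γ) (s : ℕ) (σ : Fin s → I) (N : ℕ) (a b : Fin N → ℕ)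
    (B : Submodule F ((j : Fin N) →
      (Fin (a j) → Σ i : Fin s, Fin (n (σ i))) × (Fin (b j) → Σ i : Fin s, Fin (n (σ i))) → F))
    (hB : ∀ u ∈ U, ∀ x ∈ B,
      (fun j => tens (dirSum fun i => V (σ i)) (a j) (b j) u *ᵥ x j) ∈ B)
    (π : B →ₗ[F] MvPolynomial (Fin r × Fin 2) F),
    IsOpen (U : Set Γ) ∧ (∀ p, p ∈ Set.range π ↔ p ∈ MultiHom F e) ∧
    ∀ u, ∀ hu : u ∈ U, ∀ x : B,
      π ⟨fun j => tens (dirSum fun i => V (σ i)) (a j) (b j) u *ᵥ x.1 j, hB u hu x.1 x.2⟩ =
        act ρ u (π x)

end rep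

section rel

variable {Γ Place E : Type*} [Group Γ] [TopologicalSpace Γ] [MeasurableSpace Γ] [Field E]
  {I : Type*}

/-- The algebraic relation `Φ` for `t`, with finitely many of the `P i`: for all `v` in a
non-negligible set `S` the polynomial `Φ`, with the coefficients of the `P (σ i) v` substituted for
the variables, is a nonzero polynomial in one variable with root `t v`. -/
def HasRel (μ : Measure Γ) (frob : Place → Set Γ) (P : I → Place → E[X]) (t : Place → E) : Prop :=
  ∃ (s : ℕ) (σ : Fin s → I) (S : Set Place) (Φ : (MvPolynomial (Fin s × ℕ) E)[X]),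
    NonNegl μ frob S ∧ ∀ v ∈ S,
      Φ.map (MvPolynomial.eval fun k => (P (σ k.1) v).coeff k.2) ≠ 0 ∧
      (Φ.map (MvPolynomial.eval fun k => (P (σ k.1) v).coeff k.2)).IsRoot (t v)

/-- The same with the root `t v` and such that `-t v` is not a root. -/
def HasSignRel (μ : Measure Γ) (frob : Place → Set Γ) (P : I → Place → E[X]) (t : Place → E) :
    Prop :=
  ∃ (s : ℕ) (σ : Fin s → I) (S : Set Place) (Φ : (MvPolynomial (Fin s × ℕ) E)[X]),
    NonNegl μ frob S ∧ ∀ v ∈ S,
      (Φ.map (MvPolynomial.eval fun k => (P (σ k.1) v).coeff k.2)).IsRoot (t v) ∧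
      ¬ (Φ.map (MvPolynomial.eval fun k => (P (σ k.1) v).coeff k.2)).IsRoot (-t v)

/-- Continuous representations `V i` and `ρ k` (of dimension two) over `F` with the Frobenius
polynomials `P i`, `Q k`, the `ρ k` irreducible on every open subgroup. -/
structure IsReal {F : Type*} [Field F] [TopologicalSpace F] (frob : Place → Set Γ) {r : ℕ}
    {n : I → ℕ} (P : I → Place → E[X]) (Q : Fin r → Place → E[X]) (ι : E →+* F)
    (V : (i : I) → Γ →* Matrix (Fin (n i)) (Fin (n i)) F)
    (ρ : Fin r → Γ →* Matrix (Fin 2) (Fin 2) F) : Prop where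
  contV : ∀ i, Continuous (V i)
  cont : ∀ k, Continuous (ρ k)
  compV : ∀ i, Compatible frob ι (P i) (V i)
  comp : ∀ k, Compatible frob ι (Q k) (ρ k)
  irr : ∀ k, ∀ U : Subgroup Γ, IsOpen (U : Set Γ) → Irred (fun u : U => ρ k u)

end rel

end Pool.Agent.TY
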