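import Mathlib
import Pool.Agent.helper10.TY.Defs

/-!
# MP_2e0e07_nt, project T (ParityCode): rows

Page: /team-store/T_2e0e07_helper10.md. Every row is a `Prop`; the docstring is the proof.
-/

set_option autoImplicit false

namespace Pool.Agent.TY

open Matrix Polynomial Pool.Agent.GO Pool.Agent.AR Pool.Agent.RG MeasureTheory

section defs

variable {F : Type*} [Field F] {Γ : Type*} [Group Γ] {m : Type*} [Fintype m] [DecidableEq m]
  {r : ℕ}

/-- the functions on `Γ` the restriction of which to `U` is in the algebra of `W` restricted to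
`U` -/
def AU (W : Γ →* Matrix m m F) (U : Subgroup Γ) : Subalgebra F (Γ → F) :=
  (alg (W.comp U.subtype)).comap (resF U)

/-- the span of the four coefficient functions of `ρ` -/
def Lk (ρ : Γ →* Matrix (Fin 2) (Fin 2) F) : Submodule F (Γ → F) :=
  Submodule.span F (Set.range fun p : Fin 2 × Fin 2 => fun g => ρ g p.1 p.2)

/-- the span of the products of `e k` coefficient functions of `ρ k` for all `k` -/
def LL (ρ : Fin r → Γ →* Matrix (Fin 2) (Fin 2) F) (e : Fin r → ℕ) : Submodule F (Γ → F) :=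
  ∏ k, (Lk (ρ k)) ^ (e k)

/-- the indicator function of `c` -/
def ind (c : Finset (Fin r)) : Fin r → ℕ := fun k => if k ∈ c then 1 else 0

end defs

/-- Row IDL (architect).
Proof. `J = {f ∈ alg V | ∀ l ∈ L, f * l ∈ alg V}` is a submodule, stable under multiplication by
`alg V` and under `lt h`: `lt h f * l = lt h (f * lt h⁻¹ l)` (`lt_lt`, `lt_one`, `alg_lt`). Choose
`u` with `f u ≠ 0`; `one_mem_of_stable` (helper6/GO/Fun.lean, use `alg_rt`, `alg_iv`, `LF_alg`) for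
`lt u f` gives `1 ∈ J`, so `l = 1 * l ∈ alg V`. -/
def IDL_stmt : Prop := ∀ {F Γ m : Type*} [Field F] [Group Γ] [Fintype m] [DecidableEq m]
  (V : Γ →* Matrix m m F) (L : Submodule F (Γ → F)), (∀ l ∈ L, ∀ h, lt h l ∈ L) →
  ∀ f ∈ alg V, f ≠ 0 → (∀ l ∈ L, f * l ∈ alg V) → ∀ l ∈ L, l ∈ alg V

/-- Row SGN (architect). The sign lemma. -/
def SGN_stmt : Prop := ∀ {Γ F m : Type*} [Group Γ] [TopologicalSpace Γ] [IsTopologicalGroup Γ]
  [CompactSpace Γ] [MeasurableSpace Γ] [BorelSpace Γ] (μ : Measure Γ) [μ.IsHaarMeasure]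
  [Field F] [TopologicalSpace F] [IsTopologicalRing F] [T2Space F] [Fintype m] [DecidableEq m]
  (V : Γ →* Matrix m m F) (_ : Continuous V) {r : ℕ}
  (ρ : Fin r → Γ →* Matrix (Fin 2) (Fin 2) F) (_ : ∀ k, Continuous (ρ k)) (c : Finset (Fin r))
  (U₀ : Subgroup Γ) (_ : IsOpen (U₀ : Set Γ))
  (_ : ∀ k ∈ c, ∀ i j i' j', (fun g => ρ k g i j * ρ k g i' j') ∈ AU V U₀)
  (S : Set Γ) (_ : ∀ C : Set Γ, IsClosed C → μ C = 0 → ∃ s ∈ S, s ∉ C) (P : (alg V)[X])
  (_ : ∀ s ∈ S,
    (P.map ((evG V s : alg V →ₐ[F] F) : alg V →+* F)).IsRoot (∏ k ∈ c, (ρ k s).trace) ∧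
    ¬ (P.map ((evG V s : alg V →ₐ[F] F) : alg V →+* F)).IsRoot (-∏ k ∈ c, (ρ k s).trace)),
  ∃ U : Subgroup Γ, IsOpen (U : Set Γ) ∧ U ≤ U₀ ∧ ∀ l ∈ LL ρ (ind c), l ∈ AU V U

/-- Row CSQ. A representation the coefficient functions of which are in `alg V` is a subquotient of
a finite direct sum of tensor constructions.
Proof. Let `d = finrank M`, `l_1, .., l_d : X → F` linear functionals the restrictions of which to
`M` are a basis of the dual of `M` (extend the coordinate functionals of a basis of `M` by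
`LinearMap.exists_extend`). `f : M → (Fin d → Γ → F)`, `f x i g = l_i (T g x)`, linear, injective
(value at `g = 1`). By `mem_iSup_Cs` (helper6/GO/Tens.lean) and
`Submodule.mem_iSup_iff_exists_finset` (applied to the finitely many `f (basis j) i`) there is a
finite set `t` of indices `k = ⟨a, b, p⟩` with all `f x i ∈ ⨆ k ∈ t, Cs V k`. Index set
`Fin d × t`, enumerated by `Fin N` (an equivalence `ε : Fin N ≃ Fin d × t`), `a j`, `b j` the
components of `(ε j).2`. `κ : (Π j, tens space) → (Fin d → Γ → F)`,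
`κ w i = ∑ j with (ε j).1 = i, kap V (a j) (b j) p_j (w j)`. `kap_equiv`: `κ (g w) i = rt g (κ w i)`,
and `f (T g x) i = rt g (f x i)`. `B = {w | κ w ∈ range f}`, `π w = f⁻¹ (κ w)` (as in
`exists_subquot`, helper6/GO/Tens.lean). `π` is onto `M` because every `f x i` is in
`⨆ k ∈ t, Cs V k`, a sum of images of `kap`. -/
def CSQ_stmt : Prop := ∀ {F Γ m X : Type*} [Field F] [Group Γ] [Fintype m] [DecidableEq m]
  [AddCommGroup X] [Module F X] (V : Γ →* Matrix m m F) (T : Γ → X →ₗ[F] X)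
  (M : Submodule F X) [FiniteDimensional F M] (_ : ∀ x, T 1 x = x)
  (_ : ∀ g h x, T (g * h) x = T g (T h x)) (_ : ∀ g, ∀ x ∈ M, T g x ∈ M)
  (_ : ∀ (l : X →ₗ[F] F), ∀ x ∈ M, (fun g => l (T g x)) ∈ alg V),
  ∃ (N : ℕ) (a b : Fin N → ℕ)
    (B : Submodule F ((j : Fin N) → (Fin (a j) → m) × (Fin (b j) → m) → F))
    (hB : ∀ g, ∀ x ∈ B, (fun j => tens V (a j) (b j) g *ᵥ x j) ∈ B) (π : B →ₗ[F] X),
    (∀ p, p ∈ Set.range π ↔ p ∈ M) ∧
    ∀ g, ∀ x : B, π ⟨fun j => tens V (a j) (b j) g *ᵥ x.1 j, hB g x.1 x.2⟩ = T g (π x)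

/-- Row SQC. The converse: the coefficient functions of a subquotient of a direct sum of tensor
constructions.
Proof. Extend `l ∘ π : B → F` to a functional `L` of the whole space (`LinearMap.exists_extend`).
`l (T g (π x)) = L (j ↦ tens .. g *ᵥ x j)` is a linear combination, with coefficients independent
of `g`, of the functions `g ↦ tens V (a j) (b j) g k k'`, which are in `alg V` (`tens_mem`,
helper67/RG/AdCoef.lean; the proof of `ad0_of_adSubquotient` there is the model). -/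
def SQC_stmt : Prop := ∀ {F Γ m X : Type*} [Field F] [Group Γ] [Fintype m] [DecidableEq m]
  [AddCommGroup X] [Module F X] (V : Γ →* Matrix m m F) (T : Γ → X →ₗ[F] X)
  (N : ℕ) (a b : Fin N → ℕ)
  (B : Submodule F ((j : Fin N) → (Fin (a j) → m) × (Fin (b j) → m) → F))
  (hB : ∀ g, ∀ x ∈ B, (fun j => tens V (a j) (b j) g *ᵥ x j) ∈ B) (π : B →ₗ[F] X),
  (∀ g, ∀ x : B, π ⟨fun j => tens V (a j) (b j) g *ᵥ x.1 j, hB g x.1 x.2⟩ = T g (π x)) →
  ∀ (l : X →ₗ[F] F) (x : B), (fun g => l (T g (π x))) ∈ alg V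

/-- Row EIG. Eigenvalues of a subquotient.
Proof. As `eig_of_ad` (helper67/RG/TA.lean). If `x` is an eigenvalue of no `tens V (a j) (b j) g`,
then `w ↦ g w - x w` is injective on `B`, so surjective (`LinearMap.injective_iff_surjective`, `B`
is finite-dimensional), so `T - x` maps `range π` onto `range π`, so it is injective there (`range π`
is finite-dimensional), but `(T - x) p = 0`, `p ≠ 0`. -/
def EIG_stmt : Prop := ∀ {F Γ m X : Type*} [Field F] [Group Γ] [Fintype m] [DecidableEq m]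
  [AddCommGroup X] [Module F X] (V : Γ →* Matrix m m F) (g : Γ) (T : X →ₗ[F] X)
  (N : ℕ) (a b : Fin N → ℕ)
  (B : Submodule F ((j : Fin N) → (Fin (a j) → m) × (Fin (b j) → m) → F))
  (hB : ∀ x ∈ B, (fun j => tens V (a j) (b j) g *ᵥ x j) ∈ B) (π : B →ₗ[F] X),
  (∀ x : B, π ⟨fun j => tens V (a j) (b j) g *ᵥ x.1 j, hB x.1 x.2⟩ = T (π x)) →
  ∀ (p : X) (x : F), p ≠ 0 → p ∈ Set.range π → T p = x • p →
  ∃ j, Eig (tens V (a j) (b j) g) x

/-- Row PCO. The representation `MultiHom F e`.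
Proof. With the weights `w (k, j) = Pi.single k 1 : Fin r → ℕ` one has
`Finsupp.weight w m = e ↔ ∀ k, m (k, 0) + m (k, 1) = e k`, so `MultiHom F e` is
`MvPolynomial.weightedHomogeneousSubmodule F w e`.
(1) It is contained in the span of the finitely many monomials of degree `∑ k, e k`.
(2) `act ρ g` maps the variable `x (k, j)` to a polynomial of weight `w (k, j)`, so a monomial of
weight `e` to a product of weight `e` (`IsWeightedHomogeneous.mul`, `.pow`, `.prod`).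
(3) Because of (1), (2) it is enough that `g ↦ coeff m (act ρ g p)` is in `LL ρ e` for every
monomial `p` of weight `e` and every `m`. Induction over the variables of `p` (or: the set of the
functions `q : Γ → MvPolynomial` all coefficient functions of which are in `LL ρ e'` times the one
for `e''` is in the one for `e' + e''`, `MvPolynomial.coeff_mul`, `Submodule.mul_mem_mul`,
`LL ρ (e' + e'') = LL ρ e' * LL ρ e''`), the case of a variable is clear. -/
def PCO_stmt : Prop := ∀ {F Γ : Type*} [Field F] [Group Γ] {r : ℕ}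
  (ρ : Fin r → Γ →* Matrix (Fin 2) (Fin 2) F) (e : Fin r → ℕ),
  FiniteDimensional F (MultiHom F e) ∧ (∀ g, ∀ p ∈ MultiHom F e, act ρ g p ∈ MultiHom F e) ∧
  ∀ (l : MvPolynomial (Fin r × Fin 2) F →ₗ[F] F), ∀ p ∈ MultiHom F e,
    (fun g => l (act ρ g p)) ∈ LL ρ e

/-- Row DER. `ad ρ_k` from the coefficient functions of `MultiHom F e`, `e k ≠ 0`.
Proof. For a `2 × 2` matrix `Z` let `D_Z` be the derivation of `MvPolynomial (Fin r × Fin 2) F`
(`MvPolynomial.mkDerivation`) with `x (k, j) ↦ ∑ i, Z i j x (k, i)` and `x (l, j) ↦ 0` for `l ≠ k`.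
It maps `MultiHom F e` to itself. For `Y = ρ_k(g) Z ρ_k(g)⁻¹` one has
`act g (D_Z (act g⁻¹ p)) = D_Y p` for all `p` (both sides are derivations in `p`, equal for the
variables; `act ρ g` and `act ρ g⁻¹` are inverse to each other; or check it on monomials).
Let `p_j = x (k, j) ^ (e k) * ∏ l ≠ k, x (l, 0) ^ (e l)`, `q_ij` the exponent of the monomial
`x (k, j) ^ (e k - 1) * x (k, i) * ∏ l ≠ k, x (l, 0) ^ (e l)`. Then `coeff q_ij (D_Y p_j) = e k * Y i j`
and `e k ≠ 0` in `F`. On the other hand, with `act g⁻¹ p_j = ∑ t, coeff t (act g⁻¹ p_j) • x^t` (finitely many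
exponents `t` of weight `e`): `coeff q (act g (D_Z (act g⁻¹ p_j))) = ∑ t, coeff t (act g⁻¹ p_j) *
coeff q (act g (D_Z x^t))`, a sum of products of functions of `alg V` (hypothesis; for `g⁻¹` by
`alg_iv`). Finally `ρ_ij(g) ρ_i'j'(g⁻¹) = Y i j'` for `Z = Matrix.single j i' 1`. -/
def DER_stmt : Prop := ∀ {F Γ m : Type*} [Field F] [CharZero F] [Group Γ] [Fintype m]
  [DecidableEq m] (V : Γ →* Matrix m m F) {r : ℕ} (ρ : Fin r → Γ →* Matrix (Fin 2) (Fin 2) F)
  (e : Fin r → ℕ) (k : Fin r), e k ≠ 0 →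
  (∀ (l : MvPolynomial (Fin r × Fin 2) F →ₗ[F] F), ∀ p ∈ MultiHom F e,
    (fun g => l (act ρ g p)) ∈ alg V) →
  ∀ i j i' j', (fun g => ρ k g i j * ρ k g⁻¹ i' j') ∈ alg V

/-- Row ADP. Relations between `ad0 ρ`, the products `ρ_ij(g) ρ_i'j'(g⁻¹)` and the products
`ρ_ij(g) ρ_i'j'(g)`.
Proof. (1) `ρ_ij(g) ρ_i'j'(g⁻¹) = (ρ(g) Z ρ(g)⁻¹)_ij'` for `Z = Matrix.single j i' 1`; write `Z` as a
matrix of trace zero plus a multiple of `1`; for `Z` of trace zero the entries are linear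
combinations of those of `ad0 ρ g` (`em_ad0`, `em_co`), for `1` they are constant.
(2) The entries of `ad0 ρ g = adm ρ g` are linear combinations of products
`ρ_ij(g) ρ_i'j'(g⁻¹)` (`adm`, `co`, `em`, `Matrix.mul_apply`).
(3) `det (ρ g) * ρ(g⁻¹) = adjugate (ρ g)` (`Matrix.adjugate_fin_two`), so `ρ_i'j'(g)` is `± det (ρ g)` times an
entry of `ρ(g⁻¹)`. -/
def ADP_stmt : Prop := ∀ {F Γ m : Type*} [Field F] [CharZero F] [Group Γ] [Fintype m]
  [DecidableEq m] (V : Γ →* Matrix m m F) (ρ : Γ →* Matrix (Fin 2) (Fin 2) F),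
  ((∀ i j, (fun g => ad0 ρ g i j) ∈ alg V) →
    ∀ i j i' j', (fun g => ρ g i j * ρ g⁻¹ i' j') ∈ alg V) ∧
  ((∀ i j i' j', (fun g => ρ g i j * ρ g⁻¹ i' j') ∈ alg V) →
    ∀ i j, (fun g => ad0 ρ g i j) ∈ alg V) ∧
  ((fun g => (ρ g).det) ∈ alg V → (∀ i j i' j', (fun g => ρ g i j * ρ g⁻¹ i' j') ∈ alg V) →
    ∀ i j i' j', (fun g => ρ g i j * ρ g i' j') ∈ alg V)

/-- Row SYM. The polynomial with roots the sums of `N` monomials in the roots.
Proof. In `MvPolynomial (Fin m) ℤ`: `G' = ∏ t, (X - C (∑ χ, ∏ i, (MvPolynomial.X i) ^ (t χ i)))`. A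
permutation of the variables permutes the factors (reindex `t` by `t' χ i = t χ (τ i)`), so every
coefficient of `G'` is symmetric, so a polynomial in the elementary symmetric polynomials
(`MvPolynomial.esymmAlgHom_fin_bijective` or the theorems in
Mathlib/RingTheory/MvPolynomial/Symmetric/FundamentalTheorem.lean), and `esymm k` of the `x i` is
`(-1)^k` times the coefficient `m - k` of `∏ i, (X - C (x i))` (`Multiset.prod_X_sub_C_coeff`,
`MvPolynomial.aeval_esymm_eq_multiset_esymm`). -/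
def SYM_stmt : Prop := ∀ (N B m : ℕ), ∃ G : (MvPolynomial ℕ ℤ)[X],
  ∀ {F : Type*} [Field F] (x : Fin m → F),
    G.map (MvPolynomial.eval₂Hom (Int.castRingHom F) fun k => (∏ i, (X - C (x i))).coeff k) =
      ∏ t : Fin N → Fin m → Fin (B + 1), (X - C (∑ χ, ∏ i, x i ^ (t χ i : ℕ)))

/-- Row EVC. The products of the eigenvalues of the `ρ k`, `k ∈ c`, are eigenvalues of tensor
constructions.
Proof. `y k : Fin 2 → F` an eigenvector of `ρ k u` for `γ k`; `p = ∏ k ∈ c, ∑ i, C (y k i) * X (k, i)`,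
nonzero (a product of nonzero polynomials), in `MultiHom F (ind c)`, and
`act ρ u p = (∏ k ∈ c, γ k) • p` because `act ρ u (∑ j, C (y j) * X (k, j)) =
∑ i, C ((ρ k u *ᵥ y) i) * X (k, i)`. Row EIG. -/
def EVC_stmt : Prop := ∀ {F Γ m : Type*} [Field F] [Group Γ] [Fintype m] [DecidableEq m]
  (V : Γ →* Matrix m m F) {r : ℕ} (ρ : Fin r → Γ →* Matrix (Fin 2) (Fin 2) F)
  (c : Finset (Fin r)) (g : Γ) (N : ℕ) (a b : Fin N → ℕ)
  (B : Submodule F ((j : Fin N) → (Fin (a j) → m) × (Fin (b j) → m) → F))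
  (hB : ∀ x ∈ B, (fun j => tens V (a j) (b j) g *ᵥ x j) ∈ B)
  (π : B →ₗ[F] MvPolynomial (Fin r × Fin 2) F),
  (∀ p, p ∈ Set.range π ↔ p ∈ MultiHom F (ind c)) →
  (∀ x : B, π ⟨fun j => tens V (a j) (b j) g *ᵥ x.1 j, hB x.1 x.2⟩ = act ρ g (π x)) →
  ∀ γ : Fin r → F, (∀ k ∈ c, Eig (ρ k g) (γ k)) →
  ∃ j, Eig (tens V (a j) (b j) g) (∏ k ∈ c, γ k)

/-- Row MON1. One eigenvalue as a monomial in the roots.
Proof. `eig_tens` (helper67/RG/TE.lean) gives `x * ∏ δ = ∏ γ` with eigenvalues `γ`, `δ` of `V g`, that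
is roots of the characteristic polynomial, `γ k = z (φ k)`, `δ k = z (ψ k)`. Multiply with
`(∏ i, z i) ^ D`: `x * (∏ i, z i) ^ D = ∏ i, z i ^ (#{k | φ k = i} + D - #{k | ψ k = i})`, the
exponents are between `0` and `a + D` because `#{k | ψ k = i} ≤ b ≤ D`. (All `z i ≠ 0`: `V g` is
invertible.) -/
def MON1_stmt : Prop := ∀ {F Γ m : Type*} [Field F] [IsAlgClosed F] [Group Γ] [Fintype m]
  [DecidableEq m] (V : Γ →* Matrix m m F) (a b D n : ℕ) (g : Γ) (z : Fin n → F)
  (_ : (V g).charpoly = ∏ i, (X - C (z i))) (_ : b ≤ D) (x : F) (_ : x ≠ 0)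
  (_ : Eig (tens V a b g) x),
  ∃ t : Fin n → Fin (a + D + 1), x * (∏ i, z i) ^ D = ∏ i, z i ^ (t i : ℕ)

/-- Row HCT. Continuity of a polynomial expression in the coefficients of the characteristic
polynomial.
Proof. `Polynomial.eval_map`, `eval₂_eq_sum_range`: a finite sum of `f (G.coeff j) * y u ^ j`, where
`f = eval₂Hom ..`; each `f (G.coeff j)` is continuous in `u` by `MvPolynomial.induction_on`
(constants, sums, products with a variable); `u ↦ (W u).charpoly.coeff k` is continuous: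
`Matrix.charpoly` is a determinant, expand `Matrix.det_apply` and the coefficients of products, or
`charcoeff_mem` (helper85/AR/Final.lean) and `continuous_alg` (helper85/AR/Main.lean). -/
def HCT_stmt : Prop := ∀ {Γ F : Type*} [Group Γ] [TopologicalSpace Γ] [IsTopologicalGroup Γ]
  [Field F] [TopologicalSpace F] [IsTopologicalRing F] {s : ℕ} {n : Fin s → ℕ}
  (V : (i : Fin s) → Γ →* Matrix (Fin (n i)) (Fin (n i)) F), (∀ i, Continuous (V i)) →
  ∀ (G : (MvPolynomial ℕ ℤ)[X]) (y : Γ → F), Continuous y →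
  Continuous fun u => (G.map (MvPolynomial.eval₂Hom (Int.castRingHom F)
    fun k => (dirSum V u).charpoly.coeff k)).eval (y u)

/-- Row REL. A sign-sensitive relation for the product of the traces.
Proof. `V` = `dirSum V`, `M = ∑ i, n i` its dimension (`Fintype.card (Σ i, Fin (n i))`). `c₂ = 2 ^ #c = N'`.
`D` = maximum of the `b j`, `B₀` = maximum of the `a j + D`. Row SYM for `N'`, `B₀`, `M` gives `G`;
map `ℤ → E` and `X k ↦ (∏ i, genP E i (n i)).coeff k` (`genP`, `genP_map`: helper67/RG/TR.lean) to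
get `G₁ : (MvPolynomial (Fin s × ℕ) E)[X]`; `d₀ = (∏ i, genP E i (n i)).coeff 0`,
`Φ = G₁.comp (C (((-1) ^ M * d₀) ^ D) * X)`.
For `u : Γ` let `z` be the roots of `(dirSum V u).charpoly` (algebraically closed, `M` roots with
multiplicity, `∏ i, z i = det`), `c(u) = det (dirSum V u) ^ D`, `t(u) = ∏ k ∈ c, (ρ k u).trace` and
`H(u, T) = ∏ τ, (c(u) * T - ∑ χ, ∏ i, z i ^ (τ χ i))`; by row SYM it is
`(G.map (eval₂Hom _ (coefficients of (dirSum V u).charpoly))).eval (c(u) * T)`, so `u ↦ H(u, -t(u))`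
is continuous (row HCT). At `u = 1`: `z = 1`, `c = 1`, `t = 2 ^ #c = N'`, so
`H(1, -N') = ∏ τ, (-N' - N') ≠ 0`. So `O = {u | H(u, -t(u)) ≠ 0}` is open and contains `1`.
For `u ∈ U`: `(ρ k u).trace = α_k + β_k` (`eig_two`, helper67/RG/TA.lean), `Finset.prod_add`:
`t(u) = ∑ over the subsets of c` of products, each is an eigenvalue of some `tens`
(hypothesis), nonzero (`det (ρ k u) ≠ 0`), so by row MON1 `c(u)` times it is a monomial; so
`H(u, t(u)) = 0`. `S = {v | v ∉ exceptional sets ∧ ∃ s ∈ frob v, s ∈ U ∩ O}`: non-negligible by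
`DenseIn frob ⊤ univ` (as `nonNeglOpen_of_dense`, helper67/RG/TT.lean; a closed null set does not
contain the nonempty open set `U ∩ O`). For `v ∈ S`: `(dirSum V s).charpoly = (∏ i, P i v).map ι` and
`(ρ k s).trace = ι (-(Q k v).coeff 1)` (as in `rel_of_ad`, helper67/RG/TB.lean), `Φ` specialised at
`v`, mapped by `ι`, is `H(s, ·)`; `ι` is injective. -/
def REL_stmt : Prop := ∀ {Γ Place E F : Type*} [Group Γ] [TopologicalSpace Γ]
  [IsTopologicalGroup Γ] [MeasurableSpace Γ] [BorelSpace Γ] (μ : Measure Γ)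
  [μ.IsOpenPosMeasure] (frob : Place → Set Γ) (_ : DenseIn frob ⊤ Set.univ) [Field E] [Field F]
  [IsAlgClosed F] [CharZero F] [TopologicalSpace F] [IsTopologicalRing F] [T2Space F] {s : ℕ}
  {n : Fin s → ℕ} (P : Fin s → Place → E[X]) {r : ℕ} (Q : Fin r → Place → E[X]) (ι : E →+* F)
  (V : (i : Fin s) → Γ →* Matrix (Fin (n i)) (Fin (n i)) F)
  (ρ : Fin r → Γ →* Matrix (Fin 2) (Fin 2) F) (_ : ∀ i, Continuous (V i))
  (_ : ∀ k, Continuous (ρ k)) (_ : ∀ i, Compatible frob ι (P i) (V i))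
  (_ : ∀ k, Compatible frob ι (Q k) (ρ k)) (c : Finset (Fin r)) (U : Subgroup Γ)
  (_ : IsOpen (U : Set Γ)) (N : ℕ) (a b : Fin N → ℕ)
  (_ : ∀ u ∈ U, ∀ γ : Fin r → F, (∀ k ∈ c, Eig (ρ k u) (γ k)) →
    ∃ j, Eig (tens (dirSum V) (a j) (b j) u) (∏ k ∈ c, γ k)),
  ∃ (S : Set Place) (Φ : (MvPolynomial (Fin s × ℕ) E)[X]), NonNegl μ frob S ∧ ∀ v ∈ S,
    (Φ.map (MvPolynomial.eval fun k => (P k.1 v).coeff k.2)).IsRoot
      (∏ k ∈ c, -(Q k v).coeff 1) ∧
    ¬ (Φ.map (MvPolynomial.eval fun k => (P k.1 v).coeff k.2)).IsRoot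
      (-∏ k ∈ c, -(Q k v).coeff 1)

/-- The final theorem (architect). -/
def FINAL_stmt : Prop := ∀ {Γ Place E I : Type*} [Group Γ] [TopologicalSpace Γ]
  [IsTopologicalGroup Γ] [CompactSpace Γ] [MeasurableSpace Γ] [BorelSpace Γ] (μ : Measure Γ)
  [μ.IsHaarMeasure] (frob : Place → Set Γ) (_ : DenseIn frob ⊤ Set.univ) [Field E]
  {n : I → ℕ} (P : I → Place → E[X]) {r : ℕ} (Q : Fin r → Place → E[X])
  (_ : ∀ k, ∃ i, ∀ v, P i v = X - C ((Q k v).coeff 0)),
  ∃ (J : Set (Fin r)) (C : AddSubgroup (Fin r → ZMod 2)),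
    ∀ {F : Type*} [Field F] [IsAlgClosed F] [CharZero F] [TopologicalSpace F]
      [IsTopologicalRing F] [T2Space F] (ι : E →+* F)
      (V : (i : I) → Γ →* Matrix (Fin (n i)) (Fin (n i)) F)
      (ρ : Fin r → Γ →* Matrix (Fin 2) (Fin 2) F), IsReal frob P Q ι V ρ →
    ∀ e : Fin r → ℕ,
      (SymArises V ρ e ↔ (∀ k ∉ J, e k = 0) ∧ (fun k => (e k : ZMod 2)) ∈ C) ∧
      (SymArises V ρ e ↔
        (∀ k, e k ≠ 0 → HasRel μ frob P fun v => -(Q k v).coeff 1) ∧
        HasSignRel μ frob P fun v => ∏ k with Odd (e k), -(Q k v).coeff 1)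

end Pool.Agent.TY
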