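import Mathlib
import Pool.Agent.helper10.TY.Spec

/-!
# MP_2e0e07_nt, project T: row IDL, the spaces `LL ρ e`, the sign argument
-/

set_option autoImplicit false

namespace Pool.Agent.TY

open Matrix Polynomial Pool.Agent.GO Pool.Agent.AR Pool.Agent.RG MeasureTheory

section idl

variable {F : Type*} [Field F] {Γ : Type*} [Group Γ] {m : Type*} [Fintype m] [DecidableEq m]

theorem IDL : IDL_stmt := by
  intro F Γ m _ _ _ _ V L hL f hf hf0 hfL l hl
  let J : Submodule F (Γ → F) :=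
    { carrier := {f | f ∈ alg V ∧ ∀ l ∈ L, f * l ∈ alg V}
      add_mem' := by
        rintro f f' ⟨h1, h2⟩ ⟨h1', h2'⟩
        refine ⟨Subalgebra.add_mem _ h1 h1', fun l hl => ?_⟩
        rw [add_mul]
        exact Subalgebra.add_mem _ (h2 l hl) (h2' l hl)
      zero_mem' := by
        refine ⟨Subalgebra.zero_mem _, fun l _ => ?_⟩
        rw [zero_mul]
        exact Subalgebra.zero_mem _
      smul_mem' := by
        rintro c f ⟨h1, h2⟩
        refine ⟨Subalgebra.smul_mem _ h1 c, fun l hl => ?_⟩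
        rw [smul_mul_assoc]
        exact Subalgebra.smul_mem _ (h2 l hl) c }
  have hJA : ∀ f ∈ alg V, ∀ j ∈ J, f * j ∈ J := by
    rintro f hf j ⟨h1, h2⟩
    refine ⟨Subalgebra.mul_mem _ hf h1, fun l hl => ?_⟩
    rw [mul_assoc]
    exact Subalgebra.mul_mem _ hf (h2 l hl)
  have hJlt : ∀ f ∈ J, ∀ h, lt h f ∈ J := by
    rintro f ⟨h1, h2⟩ h
    refine ⟨alg_lt V h h1, fun l hl => ?_⟩
    have h3 : lt h f * l = lt h (f * lt h⁻¹ l) := by
      rw [map_mul, lt_lt, inv_mul_cancel, lt_one]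
    rw [h3]
    exact alg_lt V h (h2 _ (hL l hl h⁻¹))
  have hfJ : f ∈ J := ⟨hf, hfL⟩
  obtain ⟨u, hu⟩ := Function.ne_iff.mp hf0
  have h1 := one_mem_of_stable (alg V) (fun f hf h => alg_rt V h hf) (fun f hf => alg_iv V hf)
    J hJA (lt u f) (alg_lt V u hf) (LF_alg V (alg_lt V u hf)) (fun h => hJlt _ (hJlt _ hfJ u) h)
    (by
      rw [lt_apply, mul_one]
      exact hu)
  have h2 := h1.2 l hl
  rwa [one_mul] at h2

end idl

section spaces

variable {F : Type*} [Field F] {Γ : Type*} [Group Γ]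

/-- stable under left translations -/
def LtS (N : Submodule F (Γ → F)) : Prop := ∀ l ∈ N, ∀ h, lt h l ∈ N

theorem LtS_one : LtS (1 : Submodule F (Γ → F)) := by
  rintro l hl h
  rw [Submodule.mem_one] at hl ⊢
  obtain ⟨c, rfl⟩ := hl
  exact ⟨c, by rw [(lt h : (Γ → F) →ₐ[F] (Γ → F)).commutes]⟩

theorem LtS_mul {N N' : Submodule F (Γ → F)} (h1 : LtS N) (h2 : LtS N') : LtS (N * N') := by
  intro l hl h
  induction hl using Submodule.mul_induction_on' with
  | mem_mul_mem a ha b hb =>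
    rw [map_mul]
    exact Submodule.mul_mem_mul (h1 a ha h) (h2 b hb h)
  | add a _ b _ ha hb =>
    rw [map_add]
    exact Submodule.add_mem _ ha hb

theorem LtS_pow {N : Submodule F (Γ → F)} (h1 : LtS N) (k : ℕ) : LtS (N ^ k) := by
  induction k with
  | zero => rw [pow_zero]; exact LtS_one
  | succ k ih => rw [pow_succ]; exact LtS_mul ih h1

theorem LtS_prod {κ : Type*} (s : Finset κ) (N : κ → Submodule F (Γ → F))
    (h : ∀ k ∈ s, LtS (N k)) : LtS (∏ k ∈ s, N k) :=
  Finset.prod_induction N LtS (fun _ _ => LtS_mul) LtS_one h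

theorem Lk_mem (ρ : Γ →* Matrix (Fin 2) (Fin 2) F) (i j : Fin 2) : (fun g => ρ g i j) ∈ Lk ρ :=
  Submodule.subset_span ⟨(i, j), rfl⟩

theorem Lk_LtS (ρ : Γ →* Matrix (Fin 2) (Fin 2) F) : LtS (Lk ρ) := by
  intro l hl h
  unfold Lk at hl
  induction hl using Submodule.span_induction with
  | mem x hx =>
    obtain ⟨p, rfl⟩ := hx
    have h1 : lt h (fun g => ρ g p.1 p.2) = ∑ k, ρ h p.1 k • fun g => ρ g k p.2 := by
      ext g
      simp only [lt_apply, map_mul, Matrix.mul_apply, Finset.sum_apply, Pi.smul_apply,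
        smul_eq_mul]
    rw [h1]
    exact Submodule.sum_mem _ fun k _ => Submodule.smul_mem _ _ (Lk_mem ρ k p.2)
  | zero => rw [map_zero]; exact Submodule.zero_mem _
  | add x y _ _ hx hy => rw [map_add]; exact Submodule.add_mem _ hx hy
  | smul c x _ hx => rw [map_smul]; exact Submodule.smul_mem _ _ hx

variable {r : ℕ} (ρ : Fin r → Γ →* Matrix (Fin 2) (Fin 2) F)

theorem LL_LtS (e : Fin r → ℕ) : LtS (LL ρ e) :=
  LtS_prod _ _ fun k _ => LtS_pow (Lk_LtS (ρ k)) (e k)

theorem LL_add (e e' : Fin r → ℕ) : LL ρ (e + e') = LL ρ e * LL ρ e' := by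
  unfold LL
  rw [← Finset.prod_mul_distrib]
  exact Finset.prod_congr rfl fun k _ => by rw [Pi.add_apply, pow_add]

theorem LL_ind (c : Finset (Fin r)) : LL ρ (ind c) = ∏ k ∈ c, Lk (ρ k) := by
  classical
  unfold LL ind
  rw [← Finset.prod_subset (Finset.subset_univ c)]
  · exact Finset.prod_congr rfl fun k hk => by rw [if_pos hk, pow_one]
  · intro k _ hk
    rw [if_neg hk, pow_zero]

omit [Group Γ] in
theorem prod_mem_prod' {κ : Type*} (s : Finset κ) (N : κ → Submodule F (Γ → F)) (f : κ → Γ → F)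
    (h : ∀ k ∈ s, f k ∈ N k) : ∏ k ∈ s, f k ∈ ∏ k ∈ s, N k := by
  classical
  induction s using Finset.induction_on with
  | empty =>
    rw [Finset.prod_empty, Finset.prod_empty]
    exact Submodule.one_le.mp le_rfl
  | insert k s hk ih =>
    rw [Finset.prod_insert hk, Finset.prod_insert hk]
    exact Submodule.mul_mem_mul (h k (Finset.mem_insert_self _ _))
      (ih fun j hj => h j (Finset.mem_insert_of_mem hj))

/-- the standard element of `LL ρ e`, with value `1` at `1` -/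
def e00 (e : Fin r → ℕ) : Γ → F := fun g => ∏ k, (ρ k g 0 0) ^ (e k)

theorem e00_mem (e : Fin r → ℕ) : e00 ρ e ∈ LL ρ e := by
  have h1 : e00 ρ e = ∏ k, (fun g => ρ k g 0 0) ^ (e k) := by
    ext g
    rw [Finset.prod_apply]
    rfl
  rw [h1]
  exact prod_mem_prod' _ _ _ fun k _ => Submodule.pow_mem_pow _ (Lk_mem (ρ k) 0 0) _

theorem e00_one (e : Fin r → ℕ) : e00 ρ e 1 = 1 := by
  unfold e00
  simp

theorem e00_ne (e : Fin r → ℕ) : e00 ρ e ≠ 0 := by
  intro h
  have := congrFun h 1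
  rw [e00_one] at this
  exact one_ne_zero this

theorem e00_add (e e' : Fin r → ℕ) : e00 ρ (e + e') = e00 ρ e * e00 ρ e' := by
  ext g
  simp only [e00, Pi.mul_apply, Pi.add_apply, pow_add, Finset.prod_mul_distrib]

end spaces

section alg

variable {F : Type*} [Field F] {Γ : Type*} [Group Γ] {m : Type*} [Fintype m] [DecidableEq m]
  (V : Γ →* Matrix m m F)

theorem alg_mul_self : (alg V).toSubmodule * (alg V).toSubmodule ≤ (alg V).toSubmodule :=
  Submodule.mul_le.mpr fun _ ha _ hb => (alg V).mul_mem ha hb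

omit [Group Γ] in
theorem mul_mono' {N N' M M' : Submodule F (Γ → F)} (h : N ≤ N') (h' : M ≤ M') :
    N * M ≤ N' * M' :=
  Submodule.mul_le.mpr fun _ ha _ hb => Submodule.mul_mem_mul (h ha) (h' hb)

theorem one_le_alg : (1 : Submodule F (Γ → F)) ≤ (alg V).toSubmodule := by
  rw [Submodule.one_le]
  exact (alg V).one_mem

theorem prod_le_alg {κ : Type*} (s : Finset κ) (N : κ → Submodule F (Γ → F))
    (h : ∀ k ∈ s, N k ≤ (alg V).toSubmodule) : ∏ k ∈ s, N k ≤ (alg V).toSubmodule :=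
  Finset.prod_induction N (fun N => N ≤ (alg V).toSubmodule)
    (fun a b ha hb => (mul_mono' ha hb).trans (alg_mul_self V))
    (one_le_alg V) h

theorem pow_le_alg {N : Submodule F (Γ → F)} (h : N ≤ (alg V).toSubmodule) (k : ℕ) :
    N ^ k ≤ (alg V).toSubmodule := by
  induction k with
  | zero => rw [pow_zero]; exact one_le_alg V
  | succ k ih =>
    rw [pow_succ]
    exact (mul_mono' ih h).trans (alg_mul_self V)

/-- the products of two coefficient functions -/
theorem Lk_mul_le (ρ : Γ →* Matrix (Fin 2) (Fin 2) F)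
    (h : ∀ i j i' j', (fun g => ρ g i j * ρ g i' j') ∈ alg V) :
    Lk ρ * Lk ρ ≤ (alg V).toSubmodule := by
  unfold Lk
  rw [Submodule.span_mul_span, Submodule.span_le]
  rintro _ ⟨_, ⟨p, rfl⟩, _, ⟨q, rfl⟩, rfl⟩
  exact h p.1 p.2 q.1 q.2

variable {r : ℕ} (ρ : Fin r → Γ →* Matrix (Fin 2) (Fin 2) F)

theorem LL_mul_self_le (e : Fin r → ℕ)
    (h : ∀ k, e k ≠ 0 → Lk (ρ k) * Lk (ρ k) ≤ (alg V).toSubmodule) :
    LL ρ e * LL ρ e ≤ (alg V).toSubmodule := by
  unfold LL
  rw [← Finset.prod_mul_distrib]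
  refine prod_le_alg V _ _ fun k _ => ?_
  rw [← mul_pow]
  by_cases hk : e k = 0
  · rw [hk, pow_zero]
    exact one_le_alg V
  · exact pow_le_alg V (h k hk) _

/-- The sign argument. -/
theorem sign_core' (L : Submodule F (Γ → F)) (hL : LtS L) (hLL : L * L ≤ (alg V).toSubmodule)
    (t : Γ → F) (ht : t ∈ L) (P : (Γ → F)[X]) (hP : ∀ k, P.coeff k ∈ alg V)
    (h0 : P.eval t = 0) (hne : P.eval (-t) ≠ 0) : L ≤ (alg V).toSubmodule := by
  have htt : t * t ∈ alg V := hLL (Submodule.mul_mem_mul ht ht)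
  have hpow : ∀ k : ℕ, t ^ (2 * k) ∈ alg V := by
    intro k
    rw [pow_mul]
    exact (alg V).pow_mem (by rw [sq]; exact htt) k
  let M : Submodule F (Γ → F) := (alg V).toSubmodule * L
  have hML : M * L ≤ (alg V).toSubmodule := by
    show (alg V).toSubmodule * L * L ≤ _
    rw [mul_assoc]
    exact (mul_mono' le_rfl hLL).trans (alg_mul_self V)
  have hpow' : ∀ k : ℕ, ∀ a ∈ alg V, a * t ^ (2 * k + 1) ∈ M := by
    intro k a ha
    rw [pow_succ, ← mul_assoc]
    exact Submodule.mul_mem_mul ((alg V).mul_mem ha (hpow k)) ht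
  set e : Γ → F := ∑ k ∈ P.support.filter Even, P.coeff k * t ^ k with he
  set o : Γ → F := ∑ k ∈ P.support.filter (fun k => ¬ Even k), P.coeff k * t ^ k with ho
  have hev : ∀ s : Γ → F, P.eval s = ∑ k ∈ P.support, P.coeff k * s ^ k := fun s => by
    rw [Polynomial.eval_eq_sum, Polynomial.sum_def]
  have h1 : P.eval t = e + o := by
    rw [hev, ← Finset.sum_filter_add_sum_filter_not P.support Even]
  have h2 : P.eval (-t) = e - o := by
    rw [hev, ← Finset.sum_filter_add_sum_filter_not P.support Even, sub_eq_add_neg]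
    congr 1
    · apply Finset.sum_congr rfl
      intro k hk
      rw [(Finset.mem_filter.mp hk).2.neg_pow]
    · rw [ho, ← Finset.sum_neg_distrib]
      apply Finset.sum_congr rfl
      intro k hk
      rw [(Nat.not_even_iff_odd.mp (Finset.mem_filter.mp hk).2).neg_pow, mul_neg]
  have he1 : e ∈ alg V := by
    refine (alg V).sum_mem fun k hk => ?_
    obtain ⟨m, hm⟩ := (Finset.mem_filter.mp hk).2
    rw [show k = 2 * m by omega]
    exact (alg V).mul_mem (hP _) (hpow m)
  have ho1 : o ∈ M := by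
    refine Submodule.sum_mem _ fun k hk => ?_
    obtain ⟨m, hm⟩ := Nat.not_even_iff_odd.mp (Finset.mem_filter.mp hk).2
    rw [hm]
    exact hpow' m _ (hP _)
  have h3 : e = -o := by
    rw [h1] at h0
    exact eq_neg_of_add_eq_zero_left h0
  have h4 : e ≠ 0 := by
    intro h4
    apply hne
    have h5 : o = 0 := by rw [h4] at h3; exact neg_eq_zero.mp h3.symm
    rw [h2, h4, h5, sub_zero]
  intro l hl
  refine IDL V L hL e he1 h4 (fun l hl => ?_) l hl
  rw [h3]
  exact hML (Submodule.mul_mem_mul (Submodule.neg_mem _ ho1) hl)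

end alg

end Pool.Agent.TY
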