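import Mathlib
import Pool.Agent.helper10.TY.Basic

/-!
# MP_2e0e07_nt, project T: row SGN, the sign lemma for products of traces
-/

set_option autoImplicit false

namespace Pool.Agent.TY

open Matrix Polynomial Pool.Agent.GO Pool.Agent.AR Pool.Agent.RG MeasureTheory

theorem resF_apply {F Γ : Type*} [Field F] [Group Γ] (U : Subgroup Γ) (f : Γ → F) (u : U) :
    resF U f u = f u := rfl

theorem mem_AU {F Γ m : Type*} [Field F] [Group Γ] [Fintype m] [DecidableEq m]
    (W : Γ →* Matrix m m F) (U : Subgroup Γ) (f : Γ → F) :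
    f ∈ AU W U ↔ resF U f ∈ alg (W.comp U.subtype) := Iff.rfl

theorem AU_mono {F Γ m : Type*} [Field F] [Group Γ] [Fintype m] [DecidableEq m]
    (W : Γ →* Matrix m m F) {U U' : Subgroup Γ} (h : U' ≤ U) : AU W U ≤ AU W U' := by
  intro f hf
  rw [mem_AU] at hf ⊢
  obtain ⟨f', hf', he⟩ := res_surj W U hf
  have h1 : resF U' f = resF U' f' := by
    ext u
    exact (congrFun he ⟨u.1, h u.2⟩).symm
  rw [h1]
  exact res_mem W U' hf'

/-- restriction of the spaces `LL` -/
theorem map_LL {F Γ : Type*} [Field F] [Group Γ] {r : ℕ}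
    (ρ : Fin r → Γ →* Matrix (Fin 2) (Fin 2) F) (U : Subgroup Γ) (e : Fin r → ℕ) :
    (LL ρ e).map (resF U : (Γ → F) →ₐ[F] (U → F)).toLinearMap =
      LL (fun k => (ρ k).comp U.subtype) e := by
  have h1 : ∀ k, (Lk (ρ k)).map (resF U : (Γ → F) →ₐ[F] (U → F)).toLinearMap =
      Lk ((ρ k).comp U.subtype) := by
    intro k
    unfold Lk
    rw [Submodule.map_span, ← Set.range_comp]
    rfl
  have h2 : ∀ (N : Submodule F (Γ → F)) (j : ℕ),
      (N ^ j).map (resF U : (Γ → F) →ₐ[F] (U → F)).toLinearMap =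
        (N.map (resF U : (Γ → F) →ₐ[F] (U → F)).toLinearMap) ^ j := fun N j =>
    Submodule.map_pow N _ j
  have h3 : ∀ (s : Finset (Fin r)) (N : Fin r → Submodule F (Γ → F)),
      (∏ k ∈ s, N k).map (resF U : (Γ → F) →ₐ[F] (U → F)).toLinearMap =
        ∏ k ∈ s, (N k).map (resF U : (Γ → F) →ₐ[F] (U → F)).toLinearMap := by
    classical
    intro s N
    induction s using Finset.induction_on with
    | empty =>
      rw [Finset.prod_empty, Finset.prod_empty]
      exact Submodule.map_one _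
    | insert k s hk ih =>
      rw [Finset.prod_insert hk, Finset.prod_insert hk, Submodule.map_mul, ih]
  unfold LL
  rw [h3]
  exact Finset.prod_congr rfl fun k _ => by rw [h2, h1]

theorem LL_le_AU_iff {F Γ m : Type*} [Field F] [Group Γ] [Fintype m] [DecidableEq m]
    (V : Γ →* Matrix m m F) {r : ℕ} (ρ : Fin r → Γ →* Matrix (Fin 2) (Fin 2) F)
    (U : Subgroup Γ) (e : Fin r → ℕ) :
    (∀ l ∈ LL ρ e, l ∈ AU V U) ↔
      LL (fun k => (ρ k).comp U.subtype) e ≤ (alg (V.comp U.subtype)).toSubmodule := by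
  rw [← map_LL, Submodule.map_le_iff_le_comap]
  rfl

theorem SGN : SGN_stmt := by
  intro Γ F m _ _ _ _ _ _ μ _ _ _ _ _ _ _ V hV r ρ hρ c U₀ hU₀ hpair S hS P hP
  classical
  let R : Γ →* Matrix (Σ _ : Fin r, Fin 2) (Σ _ : Fin r, Fin 2) F := dirSum ρ
  have hR : Continuous R := dirSum_continuous ρ hρ
  let W := ds V R
  have hW : Continuous W := by
    apply continuous_matrix
    intro a b
    show Continuous fun g => Matrix.fromBlocks (V g) 0 0 (R g) a b
    rcases a with i | i <;> rcases b with j | j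
    · exact hV.matrix_elem i j
    · exact continuous_const
    · exact continuous_const
    · exact hR.matrix_elem i j
  have hft : Algebra.FiniteType F (alg W) := finiteType_alg W
  have hnoeth : IsNoetherianRing (alg W) := Algebra.FiniteType.isNoetherianRing F _
  obtain ⟨U₁, hU₁open, hU₁⟩ := exists_component μ (alg W)
    (fun f hf => continuous_alg W hW hf) (fun f hf h => alg_lt W h hf)
  let U : Subgroup Γ := U₁ ⊓ U₀
  have hUopen : IsOpen (U : Set Γ) := hU₁open.inter hU₀
  have hU : ∀ f ∈ alg W, ∀ y : Γ,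
      μ ({g | f g = 0} ∩ {g | y⁻¹ * g ∈ U}) ≠ 0 → ∀ g, y⁻¹ * g ∈ U → f g = 0 := by
    intro f hf y hpos g hg
    refine hU₁ f hf y ?_ g hg.1
    intro h0
    apply hpos
    refine measure_mono_null ?_ h0
    rintro x ⟨hx1, hx2⟩
    exact ⟨hx1, hx2.1⟩
  have hVW : alg V ≤ alg W := alg_le_ds V R
  have hRW : ∀ k i j, (fun g => ρ k g i j) ∈ alg W := by
    intro k i j
    have h1 := coef_mem W (Sum.inr (⟨k, i⟩ : Σ _ : Fin r, Fin 2)) (Sum.inr ⟨k, j⟩)
    have h2 : (fun g => W g (Sum.inr (⟨k, i⟩ : Σ _ : Fin r, Fin 2)) (Sum.inr ⟨k, j⟩)) =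
        fun g => ρ k g i j := by
      ext g
      show Matrix.blockDiagonal' (fun k => ρ k g) ⟨k, i⟩ ⟨k, j⟩ = ρ k g i j
      rw [Matrix.blockDiagonal'_apply_eq]
    rwa [h2] at h1
  -- the product of the traces
  let tt : Γ → F := fun g => ∏ k ∈ c, (ρ k g).trace
  have htt : tt ∈ alg W := by
    have h1 : tt = ∏ k ∈ c, fun g => (ρ k g).trace := by
      ext g
      rw [Finset.prod_apply]
    rw [h1]
    refine Subalgebra.prod_mem _ fun k _ => ?_
    have h2 : (fun g => (ρ k g).trace) = (fun g => ρ k g 0 0) + fun g => ρ k g 1 1 := by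
      ext g
      rw [Matrix.trace_fin_two]
      rfl
    rw [h2]
    exact Subalgebra.add_mem _ (hRW k 0 0) (hRW k 1 1)
  let f : Γ → F := fun g => ∑ k ∈ Finset.range (P.natDegree + 1), (P.coeff k).1 g * (tt g) ^ k
  have hfW : f ∈ alg W := by
    have h1 : f = ∑ k ∈ Finset.range (P.natDegree + 1), (P.coeff k).1 * tt ^ k := by
      ext g
      simp only [f, Finset.sum_apply, Pi.mul_apply, Pi.pow_apply]
    rw [h1]
    exact Subalgebra.sum_mem _ fun k _ => Subalgebra.mul_mem _ (hVW (P.coeff k).2)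
      (Subalgebra.pow_mem _ htt k)
  have hf_eq : ∀ g, f g = (P.map ((evG V g : alg V →ₐ[F] F) : alg V →+* F)).eval (tt g) := by
    intro g
    rw [Polynomial.eval_map, Polynomial.eval₂_eq_sum_range]
    rfl
  have hfcont : Continuous f := continuous_alg W hW hfW
  -- the bad set
  have hUfin : Finite (Γ ⧸ U) := Subgroup.quotient_finite_of_isOpen U hUopen
  let cs : Γ ⧸ U → Set Γ := fun q => {g | (q.out)⁻¹ * g ∈ U}
  have hUclosed : IsClosed (U : Set Γ) := Subgroup.isClosed_of_isOpen U hUopen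
  let C : Set Γ := ⋃ q : Γ ⧸ U, if μ ({g | f g = 0} ∩ cs q) = 0 then {g | f g = 0} ∩ cs q else ∅
  have hCclosed : IsClosed C := by
    apply isClosed_iUnion_of_finite
    intro q
    split_ifs
    · refine (isClosed_singleton.preimage hfcont).inter ?_
      exact hUclosed.preimage (continuous_const.mul continuous_id)
    · exact isClosed_empty
  have hCnull : μ C = 0 := by
    apply measure_iUnion_null
    intro q
    split_ifs with h
    · exact h
    · exact measure_empty
  obtain ⟨s, hsS, hsC⟩ := hS C hCclosed hCnull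
  obtain ⟨hs1, hs2⟩ := hP s hsS
  have hfs : f s = 0 := by rw [hf_eq]; exact hs1
  have hpos : μ ({g | f g = 0} ∩ {g | s⁻¹ * g ∈ U}) ≠ 0 := by
    intro h0
    apply hsC
    have hq : ((QuotientGroup.mk s : Γ ⧸ U).out)⁻¹ * s ∈ U := by
      rw [← QuotientGroup.eq, QuotientGroup.out_eq']
    have hset : cs (QuotientGroup.mk s) = {g | s⁻¹ * g ∈ U} := by
      ext g
      show _ ↔ s⁻¹ * g ∈ U
      have e : ((QuotientGroup.mk s : Γ ⧸ U).out)⁻¹ * g =
          (((QuotientGroup.mk s : Γ ⧸ U).out)⁻¹ * s) * (s⁻¹ * g) := by group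
      constructor
      · intro h
        have h1 : ((QuotientGroup.mk s : Γ ⧸ U).out)⁻¹ * g ∈ U := h
        rw [e] at h1
        exact (U.mul_mem_cancel_left hq).mp h1
      · intro h
        show ((QuotientGroup.mk s : Γ ⧸ U).out)⁻¹ * g ∈ U
        rw [e]
        exact U.mul_mem hq h
    refine Set.mem_iUnion.mpr ⟨QuotientGroup.mk s, ?_⟩
    rw [hset, if_pos h0]
    exact ⟨hfs, by simp [U.one_mem]⟩
  have hvan := hU f hfW s hpos
  refine ⟨U, hUopen, inf_le_right, ?_⟩
  rw [LL_le_AU_iff]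
  -- the sign argument on `U`
  let t : U → F := fun u => ∏ k ∈ c, (ρ k s * ρ k u).trace
  have ht : t ∈ LL (fun k => (ρ k).comp U.subtype) (ind c) := by
    rw [LL_ind]
    have h1 : t = ∏ k ∈ c, fun u : U => (ρ k s * ρ k u).trace := by
      ext u
      rw [Finset.prod_apply]
    rw [h1]
    refine prod_mem_prod' _ _ _ fun k _ => ?_
    have h2 : (fun u : U => (ρ k s * ρ k u).trace) =
        ∑ q : Fin 2 × Fin 2, ρ k s q.1 q.2 • fun u : U => ((ρ k).comp U.subtype) u q.2 q.1 := by
      ext u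
      simp only [Matrix.trace, Matrix.diag, Matrix.mul_apply, Fintype.sum_prod_type,
        Finset.sum_apply, Pi.smul_apply, smul_eq_mul]
      rfl
    rw [h2]
    exact Submodule.sum_mem _ fun q _ => Submodule.smul_mem _ _ (Lk_mem _ _ _)
  have hval : ∀ (u : U), t u = tt (s * u) := by
    intro u
    exact Finset.prod_congr rfl fun k _ => by rw [map_mul]
  let PU : (alg (V.comp U.subtype))[X] := P.map ((trRes V U s : alg V →ₐ[F] _) : alg V →+* _)
  let Rp : (U → F)[X] := PU.map (algebraMap (alg (V.comp U.subtype)) (U → F))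
  have hR1 : ∀ k, Rp.coeff k ∈ alg (V.comp U.subtype) := by
    intro k
    show (PU.map _).coeff k ∈ _
    rw [coeff_map]
    exact (PU.coeff k).2
  have hReval : ∀ (z : U → F) (u : U), (Rp.eval z) u =
      (P.map ((evG V (s * u) : alg V →ₐ[F] F) : alg V →+* F)).eval (z u) := by
    intro z u
    let ev : (U → F) →+* F := Pi.evalRingHom (fun _ => F) u
    show ev ((PU.map _).eval z) = _
    rw [Polynomial.eval_map, Polynomial.hom_eval₂, Polynomial.eval₂_map, Polynomial.eval_map]
    rfl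
  have hR2 : Rp.eval t = 0 := by
    ext u
    rw [hReval, hval, ← hf_eq]
    exact hvan _ (by rw [inv_mul_cancel_left]; exact u.2)
  have hR3 : Rp.eval (-t) ≠ 0 := by
    intro h0
    apply hs2
    have h1 := congrFun h0 1
    rw [hReval, Pi.neg_apply, hval, OneMemClass.coe_one, mul_one] at h1
    exact h1
  refine sign_core' (V.comp U.subtype) _ (LL_LtS _ _) (LL_mul_self_le _ _ _ ?_) t ht Rp hR1
    hR2 hR3
  intro k hk
  have hkc : k ∈ c := by
    by_contra h
    apply hk
    unfold ind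
    rw [if_neg h]
  refine Lk_mul_le _ _ fun i j i' j' => ?_
  exact AU_mono V (inf_le_right : U ≤ U₀) (hpair k hkc i j i' j')

end Pool.Agent.TY
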