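import Mathlib
import Pool.Agent.helper10.TY.SGN
import Pool.Agent.helper27.TY.ADP
import Pool.Agent.helper27.TY.EIG
import Pool.Agent.helper27.TY.EVC
import Pool.Agent.helper27.TY.MON1
import Pool.Agent.helper17.TY.CSQ
import Pool.Agent.helper17.TY.DER
import Pool.Agent.helper17.TY.REL
import Pool.Agent.helper9.TY.SQC
import Pool.Agent.helper32.TY.HCT
import Pool.Agent.helper80.TY.PCO
import Pool.Agent.helper80.TY.SYM

/-!
# MP_2e0e07_nt, project T: all rows
-/
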