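import Mathlib
import Pool.Agent.helper10.TY.Rows
import Pool.Agent.helper46.DS.Signed

/-!
# MP_2e0e07_nt, project T: assembly, the representations
-/

set_option autoImplicit false

namespace Pool.Agent.TY

open Matrix Polynomial Pool.Agent.GO Pool.Agent.AR Pool.Agent.RG MeasureTheory

section fam

variable {F : Type*} [Field F] {Γ : Type*} [Group Γ] {I : Type*} {n : I → ℕ}
  (V : (i : I) → Γ →* Matrix (Fin (n i)) (Fin (n i)) F)

/-- the direct sum of a finite subfamily -/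
abbrev dsF {s : ℕ} (σ : Fin s → I) :
    Γ →* Matrix (Σ i : Fin s, Fin (n (σ i))) (Σ i : Fin s, Fin (n (σ i))) F :=
  dirSum fun i => V (σ i)

theorem coef_dsF {s : ℕ} (σ : Fin s → I) (i : I) (hi : i ∈ Set.range σ) (a b : Fin (n i)) :
    (fun g => V i g a b) ∈ alg (dsF V σ) ∧ (fun g => V i g⁻¹ a b) ∈ alg (dsF V σ) := by
  obtain ⟨j, rfl⟩ := hi
  have h1 : ∀ g, dsF V σ g ⟨j, a⟩ ⟨j, b⟩ = V (σ j) g a b := by
    intro g
    show Matrix.blockDiagonal' (fun i => V (σ i) g) ⟨j, a⟩ ⟨j, b⟩ = _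
    rw [Matrix.blockDiagonal'_apply_eq]
  have h2 := coef_mem (dsF V σ) ⟨j, a⟩ ⟨j, b⟩
  have h3 := coefInv_mem (dsF V σ) ⟨j, a⟩ ⟨j, b⟩
  simp only [h1] at h2 h3
  exact ⟨h2, h3⟩

theorem alg_dsF_mono {s s' : ℕ} (σ : Fin s → I) (σ' : Fin s' → I)
    (h : Set.range σ ⊆ Set.range σ') : alg (dsF V σ) ≤ alg (dsF V σ') := by
  have h1 : ∀ (p q : Σ i : Fin s, Fin (n (σ i))) (g : Γ), dsF V σ g p q =
      if h : p.1 = q.1 then V (σ p.1) g p.2 (h ▸ q.2) else 0 := by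
    rintro ⟨i, a⟩ ⟨j, b⟩ g
    by_cases hij : i = j
    · subst hij
      rw [dif_pos rfl]
      show Matrix.blockDiagonal' (fun i => V (σ i) g) ⟨i, a⟩ ⟨i, b⟩ = _
      rw [Matrix.blockDiagonal'_apply_eq]
    · rw [dif_neg hij]
      show Matrix.blockDiagonal' (fun i => V (σ i) g) ⟨i, a⟩ ⟨j, b⟩ = _
      rw [Matrix.blockDiagonal'_apply_ne _ _ _ hij]
  apply alg_le
  · rintro ⟨i, a⟩ ⟨j, b⟩
    by_cases hij : i = j
    · subst hij
      have h2 := (coef_dsF V σ' (σ i) (h ⟨i, rfl⟩) a b).1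
      have h3 : (fun g => dsF V σ g ⟨i, a⟩ ⟨i, b⟩) = fun g => V (σ i) g a b := by
        ext g
        rw [h1]
        simp
      rwa [h3]
    · have h3 : (fun g => dsF V σ g ⟨i, a⟩ ⟨j, b⟩) = 0 := by
        ext g
        rw [h1, dif_neg hij]
        rfl
      rw [h3]
      exact Subalgebra.zero_mem _
  · rintro ⟨i, a⟩ ⟨j, b⟩
    by_cases hij : i = j
    · subst hij
      have h2 := (coef_dsF V σ' (σ i) (h ⟨i, rfl⟩) a b).2
      have h3 : (fun g => dsF V σ g⁻¹ ⟨i, a⟩ ⟨i, b⟩) = fun g => V (σ i) g⁻¹ a b := by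
        ext g
        rw [h1]
        simp
      rwa [h3]
    · have h3 : (fun g => dsF V σ g⁻¹ ⟨i, a⟩ ⟨j, b⟩) = 0 := by
        ext g
        rw [h1, dif_neg hij]
        rfl
      rw [h3]
      exact Subalgebra.zero_mem _

theorem AU_mono_alg {m m' : Type*} [Fintype m] [DecidableEq m] [Fintype m'] [DecidableEq m']
    (W : Γ →* Matrix m m F) (W' : Γ →* Matrix m' m' F) (h : alg W ≤ alg W') (U : Subgroup Γ) :
    AU W U ≤ AU W' U := by
  intro f hf
  rw [mem_AU] at hf ⊢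
  obtain ⟨f', hf', he⟩ := res_surj W U hf
  rw [← he]
  exact res_mem W' U (h hf')

theorem AU_dsF_mono {s s' : ℕ} (σ : Fin s → I) (σ' : Fin s' → I)
    (h : Set.range σ ⊆ Set.range σ') {U U' : Subgroup Γ} (hU : U' ≤ U) :
    AU (dsF V σ) U ≤ AU (dsF V σ') U' :=
  (AU_mono (dsF V σ) hU).trans (AU_mono_alg _ _ (alg_dsF_mono V σ σ' h) U')

/-- a finite set of indices is the range of some `σ` -/
theorem exists_range {T : Set I} (hT : T.Finite) : ∃ (s : ℕ) (σ : Fin s → I), Set.range σ = T := by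
  have := hT.to_subtype
  obtain ⟨s, ⟨e⟩⟩ := Finite.exists_equiv_fin T
  refine ⟨s, fun i => (e.symm i).1, ?_⟩
  ext x
  constructor
  · rintro ⟨i, rfl⟩
    exact (e.symm i).2
  · intro hx
    refine ⟨e ⟨x, hx⟩, ?_⟩
    show (e.symm (e ⟨x, hx⟩)).1 = x
    rw [Equiv.symm_apply_apply]

variable {r : ℕ} (ρ : Fin r → Γ →* Matrix (Fin 2) (Fin 2) F)

/-- all products of `e k` coefficients of the `ρ k` are coefficients of tensor constructions on
`U` -/
def LA [TopologicalSpace Γ] (e : Fin r → ℕ) : Prop :=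
  ∃ (s : ℕ) (σ : Fin s → I) (U : Subgroup Γ), IsOpen (U : Set Γ) ∧
    ∀ l ∈ LL ρ e, l ∈ AU (dsF V σ) U

theorem act_X {F : Type*} [Field F] {Γ : Type*} [Group Γ] {r : ℕ}
    (ρ : Fin r → Γ →* Matrix (Fin 2) (Fin 2) F) (g : Γ) (p : Fin r × Fin 2) :
    act ρ g (MvPolynomial.X p) =
      ∑ i, MvPolynomial.C (ρ p.1 g i p.2) * MvPolynomial.X (p.1, i) := by
  unfold act
  rw [MvPolynomial.aeval_X]

theorem act_one {F : Type*} [Field F] {Γ : Type*} [Group Γ] {r : ℕ}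
    (ρ : Fin r → Γ →* Matrix (Fin 2) (Fin 2) F) : act ρ 1 = AlgHom.id F _ := by
  refine MvPolynomial.algHom_ext fun p => ?_
  obtain ⟨k, j⟩ := p
  rw [act_X, AlgHom.id_apply, Fin.sum_univ_two, map_one]
  show MvPolynomial.C ((1 : Matrix (Fin 2) (Fin 2) F) 0 j) * MvPolynomial.X (k, 0) +
    MvPolynomial.C ((1 : Matrix (Fin 2) (Fin 2) F) 1 j) * MvPolynomial.X (k, 1) =
      MvPolynomial.X (k, j)
  by_cases hj : j = 0
  · subst hj
    rw [Matrix.one_apply_eq, Matrix.one_apply_ne one_ne_zero]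
    simp
  · have hj1 : j = 1 := by omega
    subst hj1
    rw [Matrix.one_apply_eq, Matrix.one_apply_ne zero_ne_one]
    simp

theorem act_mul {F : Type*} [Field F] {Γ : Type*} [Group Γ] {r : ℕ}
    (ρ : Fin r → Γ →* Matrix (Fin 2) (Fin 2) F) (g h : Γ) :
    act ρ (g * h) = (act ρ g).comp (act ρ h) := by
  refine MvPolynomial.algHom_ext fun p => ?_
  obtain ⟨k, j⟩ := p
  have hC : ∀ (g : Γ) (c : F), act ρ g (MvPolynomial.C c) = MvPolynomial.C c := fun g c =>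
    (act ρ g).commutes c
  rw [AlgHom.comp_apply, act_X, act_X, map_sum]
  simp only [map_mul, hC, act_X, Matrix.mul_apply, Fin.sum_univ_two, map_add]
  ring

theorem act_restrict {F : Type*} [Field F] {Γ : Type*} [Group Γ] {r : ℕ}
    (ρ : Fin r → Γ →* Matrix (Fin 2) (Fin 2) F) (U : Subgroup Γ) (u : U) :
    act (fun k => (ρ k).comp U.subtype) u = act ρ u.1 := rfl

theorem tens_restrict {F : Type*} [Field F] {Γ : Type*} [Group Γ] {m : Type*} [Fintype m]
    [DecidableEq m] (W : Γ →* Matrix m m F) (U : Subgroup Γ) (a b : ℕ) (u : U) :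
    tens (W.comp U.subtype) a b u = tens W a b u.1 := rfl

/-- data for `SymArises` from the spaces -/
theorem data_of_LL {m : Type*} [Fintype m] [DecidableEq m] (W : Γ →* Matrix m m F)
    (U : Subgroup Γ) (e : Fin r → ℕ) (h : ∀ l ∈ LL ρ e, l ∈ AU W U) :
    ∃ (N : ℕ) (a b : Fin N → ℕ)
      (B : Submodule F ((j : Fin N) → (Fin (a j) → m) × (Fin (b j) → m) → F))
      (hB : ∀ u ∈ U, ∀ x ∈ B, (fun j => tens W (a j) (b j) u *ᵥ x j) ∈ B)
      (π : B →ₗ[F] MvPolynomial (Fin r × Fin 2) F),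
      (∀ p, p ∈ Set.range π ↔ p ∈ MultiHom F e) ∧
      ∀ u, ∀ hu : u ∈ U, ∀ x : B,
        π ⟨fun j => tens W (a j) (b j) u *ᵥ x.1 j, hB u hu x.1 x.2⟩ = act ρ u (π x) := by
  obtain ⟨hfin, hst, hco⟩ := PCO (fun k => (ρ k).comp U.subtype) e
  rw [LL_le_AU_iff] at h
  obtain ⟨N, a, b, B, hB, π, hπ, heq⟩ := CSQ (W.comp U.subtype)
    (fun u => (act (fun k => (ρ k).comp U.subtype) u).toLinearMap) (MultiHom F e)
    (fun x => by
      have h1 := congrArg (fun f : _ →ₐ[F] _ => f x) (act_one fun k => (ρ k).comp U.subtype)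
      exact h1)
    (fun g h x => by
      have h1 := congrArg (fun f : _ →ₐ[F] _ => f x)
        (act_mul (fun k => (ρ k).comp U.subtype) g h)
      exact h1) (fun g p hp => hst g p hp) (fun l p hp => h (hco l p hp))
  exact ⟨N, a, b, B, fun u hu x hx => hB ⟨u, hu⟩ x hx, π, hπ, fun u hu x => heq ⟨u, hu⟩ x⟩

theorem symArises_of_LA [TopologicalSpace Γ] (e : Fin r → ℕ) (h : LA V ρ e) :
    SymArises V ρ e := by
  obtain ⟨s, σ, U, hU, h⟩ := h
  obtain ⟨N, a, b, B, hB, π, hπ, heq⟩ := data_of_LL ρ (dsF V σ) U e h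
  exact ⟨U, s, σ, N, a, b, B, hB, π, hU, hπ, heq⟩

theorem LA_add [TopologicalSpace Γ] (e e' : Fin r → ℕ) (h : LA V ρ e) (h' : LA V ρ e') :
    LA V ρ (e + e') := by
  obtain ⟨s, σ, U, hU, h⟩ := h
  obtain ⟨s', σ', U', hU', h'⟩ := h'
  obtain ⟨s'', σ'', hσ⟩ := exists_range ((Set.finite_range σ).union (Set.finite_range σ'))
  have h1 : Set.range σ ⊆ Set.range σ'' := by rw [hσ]; exact Set.subset_union_left
  have h2 : Set.range σ' ⊆ Set.range σ'' := by rw [hσ]; exact Set.subset_union_right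
  refine ⟨s'', σ'', U ⊓ U', hU.inter hU', ?_⟩
  rw [LL_add]
  intro l hl
  refine Submodule.mul_induction_on hl ?_ ?_
  · intro a ha b hb
    exact Subalgebra.mul_mem _ (AU_dsF_mono V σ σ'' h1 inf_le_left (h a ha))
      (AU_dsF_mono V σ' σ'' h2 inf_le_right (h' b hb))
  · intro a b ha hb
    exact Subalgebra.add_mem _ ha hb

end fam

end Pool.Agent.TY
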