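import Mathlib
import Pool.Agent.helper10.TY.Asm1

/-!
# MP_2e0e07_nt, project T: assembly, parity and relations
-/

set_option autoImplicit false

namespace Pool.Agent.TY

open Matrix Polynomial Pool.Agent.GO Pool.Agent.AR Pool.Agent.RG MeasureTheory

/-- the indices with an odd exponent -/
def par {r : ℕ} (e : Fin r → ℕ) : Finset (Fin r) := Finset.univ.filter fun k => Odd (e k)

theorem par_decomp {r : ℕ} (e : Fin r → ℕ) :
    e = ind (par e) + fun k => 2 * (e k / 2) := by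
  funext k
  rw [Pi.add_apply]
  unfold ind par
  simp only [Finset.mem_filter, Finset.mem_univ, true_and]
  split_ifs with h
  · rw [Nat.odd_iff] at h
    omega
  · rw [Nat.not_odd_iff] at h
    omega

section parity

variable {F : Type*} [Field F] {Γ : Type*} [Group Γ] {m : Type*} [Fintype m] [DecidableEq m]
  (V : Γ →* Matrix m m F) {r : ℕ} (ρ : Fin r → Γ →* Matrix (Fin 2) (Fin 2) F)

theorem LL_even_le (e : Fin r → ℕ)
    (h : ∀ k, e k ≠ 0 → Lk (ρ k) * Lk (ρ k) ≤ (alg V).toSubmodule) :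
    LL ρ (fun k => 2 * (e k / 2)) ≤ (alg V).toSubmodule := by
  refine prod_le_alg V _ _ fun k _ => ?_
  rw [pow_mul, pow_two]
  by_cases hk : e k = 0
  · rw [hk, Nat.zero_div, pow_zero]
    exact one_le_alg V
  · exact pow_le_alg V (h k hk) _

theorem LL_par (e : Fin r → ℕ)
    (h : ∀ k, e k ≠ 0 → Lk (ρ k) * Lk (ρ k) ≤ (alg V).toSubmodule) :
    LL ρ e ≤ (alg V).toSubmodule ↔ LL ρ (ind (par e)) ≤ (alg V).toSubmodule := by
  have hev := LL_even_le V ρ e h
  have hind : ∀ k, ind (par e) k ≠ 0 → Lk (ρ k) * Lk (ρ k) ≤ (alg V).toSubmodule := by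
    intro k hk
    apply h
    intro h0
    apply hk
    unfold ind par
    rw [if_neg]
    simp [h0]
  constructor
  · intro h1
    have h2 : e00 ρ e ∈ alg V := h1 (e00_mem ρ e)
    intro l hl
    refine IDL V (LL ρ (ind (par e))) (LL_LtS _ _) (e00 ρ e) h2 (e00_ne ρ e) (fun l hl => ?_)
      l hl
    have h3 : e00 ρ e * l = e00 ρ (fun k => 2 * (e k / 2)) * (e00 ρ (ind (par e)) * l) := by
      conv_lhs => rw [par_decomp e, e00_add]
      ring
    rw [h3]
    exact (alg V).mul_mem (hev (e00_mem _ _))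
      (LL_mul_self_le V ρ (ind (par e)) hind (Submodule.mul_mem_mul (e00_mem _ _) hl))
  · intro h1
    rw [par_decomp e, LL_add]
    exact (mul_mono' h1 hev).trans (alg_mul_self V)

theorem LL_of_e00 (e : Fin r → ℕ)
    (h : ∀ k, e k ≠ 0 → Lk (ρ k) * Lk (ρ k) ≤ (alg V).toSubmodule)
    (h0 : e00 ρ e ∈ alg V) : LL ρ e ≤ (alg V).toSubmodule := by
  intro l hl
  exact IDL V (LL ρ e) (LL_LtS _ _) (e00 ρ e) h0 (e00_ne ρ e)
    (fun l hl => LL_mul_self_le V ρ e h (Submodule.mul_mem_mul (e00_mem _ _) hl)) l hl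

end parity

section restrict

variable {F : Type*} [Field F] {Γ : Type*} [Group Γ]

theorem alg_restrict_mono {m m' : Type*} [Fintype m] [DecidableEq m] [Fintype m']
    [DecidableEq m'] (W : Γ →* Matrix m m F) (W' : Γ →* Matrix m' m' F) (h : alg W ≤ alg W')
    (U : Subgroup Γ) : alg (W.comp U.subtype) ≤ alg (W'.comp U.subtype) := by
  intro f hf
  obtain ⟨f', hf', he⟩ := res_surj W U hf
  rw [← he]
  exact res_mem W' U (h hf')

variable {I : Type*} {n : I → ℕ} (V : (i : I) → Γ →* Matrix (Fin (n i)) (Fin (n i)) F)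
  {r : ℕ} (ρ : Fin r → Γ →* Matrix (Fin 2) (Fin 2) F)

/-- the products of two coefficients of `ρ k` are in the algebra on `U` -/
def PairIn {s : ℕ} (σ : Fin s → I) (U : Subgroup Γ) (k : Fin r) : Prop :=
  ∀ i j i' j', (fun g => ρ k g i j * ρ k g i' j') ∈ AU (dsF V σ) U

theorem PairIn.mono {s s' : ℕ} {σ : Fin s → I} {σ' : Fin s' → I} {U U' : Subgroup Γ} {k : Fin r}
    (h : PairIn V ρ σ U k) (hσ : Set.range σ ⊆ Set.range σ') (hU : U' ≤ U) :
    PairIn V ρ σ' U' k := fun i j i' j' => AU_dsF_mono V σ σ' hσ hU (h i j i' j')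

theorem PairIn.le {s : ℕ} {σ : Fin s → I} {U : Subgroup Γ} {k : Fin r}
    (h : PairIn V ρ σ U k) : Lk ((ρ k).comp U.subtype) * Lk ((ρ k).comp U.subtype) ≤
      (alg ((dsF V σ).comp U.subtype)).toSubmodule :=
  Lk_mul_le _ _ fun i j i' j' => h i j i' j'

/-- the parity lemma on `U` -/
theorem LL_par_AU {s : ℕ} (σ : Fin s → I) (U : Subgroup Γ) (e : Fin r → ℕ)
    (h : ∀ k, e k ≠ 0 → PairIn V ρ σ U k) :
    (∀ l ∈ LL ρ e, l ∈ AU (dsF V σ) U) ↔ ∀ l ∈ LL ρ (ind (par e)), l ∈ AU (dsF V σ) U := by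
  rw [LL_le_AU_iff, LL_le_AU_iff]
  exact LL_par _ _ e fun k hk => (h k hk).le

end restrict

section real

variable {Γ Place E F I : Type*} [Group Γ] [TopologicalSpace Γ] [IsTopologicalGroup Γ]
  [MeasurableSpace Γ]
  (frob : Place → Set Γ) [Field E] [Field F] [TopologicalSpace F] [IsTopologicalRing F]
  [T2Space F] {n : I → ℕ} (P : I → Place → E[X]) {r : ℕ} (Q : Fin r → Place → E[X])
  (ι : E →+* F) (V : (i : I) → Γ →* Matrix (Fin (n i)) (Fin (n i)) F)
  (ρ : Fin r → Γ →* Matrix (Fin 2) (Fin 2) F)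

omit [MeasurableSpace Γ] [IsTopologicalGroup Γ] [IsTopologicalRing F] [T2Space F] in
theorem real_single (hR : IsReal frob P Q ι V ρ) {s : ℕ} (σ : Fin s → I) (k : Fin r) :
    IsRealisation frob (fun i => P (σ i)) (Q k) ι (fun i => V (σ i)) (ρ k) where
  contV i := hR.contV (σ i)
  cont := hR.cont k
  compV i := hR.compV (σ i)
  comp := hR.comp k
  irr := hR.irr k

omit [MeasurableSpace Γ] in
theorem det_mem_dsF (hd : DenseIn frob ⊤ Set.univ) (hR : IsReal frob P Q ι V ρ) {s : ℕ}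
    (σ : Fin s → I) (k : Fin r)
    (hk : ∃ i ∈ Set.range σ, ∀ v, P i v = X - C ((Q k v).coeff 0)) :
    (fun g => (ρ k g).det) ∈ alg (dsF V σ) := by
  obtain ⟨_, ⟨i, rfl⟩, hi⟩ := hk
  exact Pool.Agent.DS.det_mem frob (fun i => P (σ i)) (Q k) hd i hi ι (fun i => V (σ i)) (ρ k)
    (real_single frob P Q ι V ρ hR σ k)

omit [MeasurableSpace Γ] in
/-- from the coefficient functions of the representation to the spaces of functions -/
theorem data_of_coef [CharZero F] (hd : DenseIn frob ⊤ Set.univ)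
    (hdet : ∀ k, ∃ i, ∀ v, P i v = X - C ((Q k v).coeff 0))
    (hR : IsReal frob P Q ι V ρ) (e : Fin r → ℕ)
    (h : ∃ (s : ℕ) (σ : Fin s → I) (U : Subgroup Γ), IsOpen (U : Set Γ) ∧
      ∀ (l : MvPolynomial (Fin r × Fin 2) F →ₗ[F] F), ∀ p ∈ MultiHom F e,
        (fun u : U => l (act (fun k => (ρ k).comp U.subtype) u p)) ∈
          alg ((dsF V σ).comp U.subtype)) :
    ∃ (s : ℕ) (σ : Fin s → I) (U : Subgroup Γ), IsOpen (U : Set Γ) ∧
      (∀ k, ∃ i ∈ Set.range σ, ∀ v, P i v = X - C ((Q k v).coeff 0)) ∧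
      (∀ k, e k ≠ 0 → PairIn V ρ σ U k ∧ ∀ i j, (fun u : U => ad0 ((ρ k).comp U.subtype) u i j) ∈
        alg ((dsF V σ).comp U.subtype)) ∧
      ∀ l ∈ LL ρ e, l ∈ AU (dsF V σ) U := by
  choose i₀ hi₀ using hdet
  obtain ⟨s₁, σ₁, U, hU, hco₁⟩ := h
  obtain ⟨s, σ, hσ⟩ := exists_range ((Set.finite_range σ₁).union (Set.finite_range i₀))
  have h1 : Set.range σ₁ ⊆ Set.range σ := by rw [hσ]; exact Set.subset_union_left
  have hi : ∀ k, i₀ k ∈ Set.range σ := fun k => by rw [hσ]; exact Or.inr ⟨k, rfl⟩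
  have hco : ∀ (l : MvPolynomial (Fin r × Fin 2) F →ₗ[F] F), ∀ p ∈ MultiHom F e,
      (fun u : U => l (act (fun k => (ρ k).comp U.subtype) u p)) ∈
        alg ((dsF V σ).comp U.subtype) := fun l p hp =>
    alg_restrict_mono _ _ (alg_dsF_mono V σ₁ σ h1) U (hco₁ l p hp)
  have hk : ∀ k, e k ≠ 0 → PairIn V ρ σ U k ∧
      ∀ i j, (fun u : U => ad0 ((ρ k).comp U.subtype) u i j) ∈
        alg ((dsF V σ).comp U.subtype) := by
    intro k hk
    have h2 := DER ((dsF V σ).comp U.subtype) (fun k => (ρ k).comp U.subtype) e k hk hco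
    obtain ⟨-, h3, h4⟩ := ADP ((dsF V σ).comp U.subtype) ((ρ k).comp U.subtype)
    have h5 : (fun u : U => (((ρ k).comp U.subtype) u).det) ∈ alg ((dsF V σ).comp U.subtype) :=
      res_mem (dsF V σ) U (det_mem_dsF frob P Q ι V ρ hd hR σ k ⟨i₀ k, hi k, hi₀ k⟩)
    exact ⟨fun i j i' j' => h4 h5 h2 i j i' j', h3 h2⟩
  refine ⟨s, σ, U, hU, fun k => ⟨i₀ k, hi k, hi₀ k⟩, hk, ?_⟩
  rw [LL_le_AU_iff]
  refine LL_of_e00 _ _ e (fun k hk' => (hk k hk').1.le) ?_
  have h6 := hco (MvPolynomial.aeval fun p : Fin r × Fin 2 => if p.2 = 0 then (1 : F) else 0).toLinearMap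
    (∏ k, MvPolynomial.X (k, 0) ^ (e k)) (by
      classical
      intro m hm k
      have h7 : (∏ k, MvPolynomial.X (k, 0) ^ (e k) : MvPolynomial (Fin r × Fin 2) F) =
          MvPolynomial.monomial (∑ k, Finsupp.single (k, 0) (e k)) 1 := by
        rw [MvPolynomial.monomial_sum_one]
        exact Finset.prod_congr rfl fun k _ => by rw [MvPolynomial.X_pow_eq_monomial]
      rw [h7] at hm
      have h8 := Finset.mem_singleton.1 (MvPolynomial.support_monomial_subset hm)
      rw [h8, Finsupp.finsetSum_apply, Finsupp.finsetSum_apply]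
      have h9 : ∀ j : Fin r, (Finsupp.single ((j, 0) : Fin r × Fin 2) (e j)) (k, 0) =
          if j = k then e k else 0 := by
        intro j
        by_cases hjk : j = k
        · subst hjk; simp
        · rw [if_neg hjk, Finsupp.single_eq_of_ne]
          intro h10
          exact hjk (congrArg Prod.fst h10).symm
      have h11 : ∀ j : Fin r, (Finsupp.single ((j, 0) : Fin r × Fin 2) (e j)) (k, 1) = 0 := by
        intro j
        rw [Finsupp.single_eq_of_ne]
        intro h10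
        exact absurd (congrArg Prod.snd h10) one_ne_zero
      simp only [h9, h11, Finset.sum_const_zero, add_zero, Finset.sum_ite_eq', Finset.mem_univ,
        if_true])
  have h7 : (fun u : U => (MvPolynomial.aeval fun p : Fin r × Fin 2 =>
      if p.2 = 0 then (1 : F) else 0).toLinearMap (act (fun k => (ρ k).comp U.subtype) u
        (∏ k, MvPolynomial.X (k, 0) ^ (e k)))) = e00 (fun k => (ρ k).comp U.subtype) e := by
    funext u
    rw [AlgHom.toLinearMap_apply, map_prod, map_prod]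
    unfold e00
    refine Finset.prod_congr rfl fun k _ => ?_
    rw [map_pow, map_pow, act_X, Fin.sum_univ_two]
    simp
  rw [h7] at h6
  exact h6

end real

end Pool.Agent.TY
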