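import Mathlib
import Pool.Agent.helper10.TY.Defs

/-!
# MP_2e0e07_nt, project T (ParityCode): definition of the final statement
-/

set_option autoImplicit false

namespace Pool.Agent.TY

open Matrix Polynomial Pool.Agent.GO Pool.Agent.AR Pool.Agent.RG MeasureTheory

/-- The representation `Sym^(e 1) ρ 1 ⊗ ⋯ ⊗ Sym^(e r) ρ r` (`MultiHom F e` with the action `act ρ`)
is a subquotient of a finite direct sum of representations `W^{⊗ a} ⊗ (W^∨)^{⊗ b} ⊗ F[Fin M]`, where
`W` is the direct sum of finitely many of the `V i` and `Γ` acts on `Fin M` through the permutations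
`τ`, with open kernel: there are a stable subspace `B` of this direct sum (its elements are the
functions `w` on `Fin M` with values in the direct sum of the `W^{⊗ a} ⊗ (W^∨)^{⊗ b}`, and
`(g w)(x) = g (w (τ(g)⁻¹ x))`) and an equivariant linear map from `B` onto the space of the
representation. -/
def SymGeom {F : Type*} [Field F] {Γ : Type*} [Group Γ] [TopologicalSpace Γ] {r : ℕ} {I : Type*}
    {n : I → ℕ} (V : (i : I) → Γ →* Matrix (Fin (n i)) (Fin (n i)) F)
    (ρ : Fin r → Γ →* Matrix (Fin 2) (Fin 2) F) (e : Fin r → ℕ) : Prop :=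
  ∃ (s : ℕ) (σ : Fin s → I) (N : ℕ) (a b : Fin N → ℕ) (M : ℕ) (τ : Γ →* Equiv.Perm (Fin M))
    (B : Submodule F (Fin M → (j : Fin N) →
      (Fin (a j) → Σ i : Fin s, Fin (n (σ i))) × (Fin (b j) → Σ i : Fin s, Fin (n (σ i))) → F))
    (hB : ∀ g, ∀ w ∈ B, (fun x j =>
      tens (dirSum fun i => V (σ i)) (a j) (b j) g *ᵥ w ((τ g)⁻¹ x) j) ∈ B)
    (π : B →ₗ[F] MvPolynomial (Fin r × Fin 2) F),
    IsOpen (τ.ker : Set Γ) ∧ (∀ p, p ∈ Set.range π ↔ p ∈ MultiHom F e) ∧
    ∀ g, ∀ w : B, π ⟨fun x j =>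
      tens (dirSum fun i => V (σ i)) (a j) (b j) g *ᵥ w.1 ((τ g)⁻¹ x) j, hB g w.1 w.2⟩ =
        act ρ g (π w)

end Pool.Agent.TY
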