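import Mathlib
import Pool.Agent.helper10.TY.Defs2
import Pool.Agent.helper10.TY.Asm1

/-!
# MP_2e0e07_nt, project T: induction from an open subgroup
-/

set_option autoImplicit false

namespace Pool.Agent.TY

open Matrix Polynomial Pool.Agent.GO Pool.Agent.AR Pool.Agent.RG MeasureTheory

section ind

variable {Γ F X Y : Type*} [Group Γ] [Field F] [AddCommGroup X] [Module F X] [AddCommGroup Y]
  [Module F Y]

/-- A subquotient on a subgroup `U` of finite index gives a subquotient of the functions on the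
cosets. -/
theorem IND2 (T : Γ → Y →ₗ[F] Y) (hT1 : ∀ y, T 1 y = y) (hTm : ∀ g h y, T (g * h) y = T g (T h y))
    (A : Γ → X →ₗ[F] X) (hA1 : ∀ y, A 1 y = y) (hAm : ∀ g h y, A (g * h) y = A g (A h y))
    (M : Submodule F X) (hM : ∀ g, ∀ x ∈ M, A g x ∈ M) (U : Subgroup Γ)
    (B₀ : Submodule F Y) (hB₀ : ∀ u ∈ U, ∀ y ∈ B₀, T u y ∈ B₀) (π₀ : B₀ →ₗ[F] X)
    (hr : ∀ p, p ∈ Set.range π₀ ↔ p ∈ M)
    (he : ∀ u, ∀ hu : u ∈ U, ∀ y : B₀, π₀ ⟨T u y.1, hB₀ u hu y.1 y.2⟩ = A u (π₀ y))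
    (N : ℕ) (ε : (Γ ⧸ U) ≃ Fin N) (τ : Γ →* Equiv.Perm (Fin N))
    (hτ : ∀ g x, τ g (ε x) = ε (g • x)) :
    ∃ (B : Submodule F (Fin N → Y)) (hB : ∀ g, ∀ w ∈ B, (fun x => T g (w ((τ g)⁻¹ x))) ∈ B)
      (π : B →ₗ[F] X), (∀ p, p ∈ Set.range π ↔ p ∈ M) ∧
      ∀ g, ∀ w : B, π ⟨fun x => T g (w.1 ((τ g)⁻¹ x)), hB g w.1 w.2⟩ = A g (π w) := by
  classical
  obtain ⟨π', hπ'⟩ := LinearMap.exists_extend π₀
  have hπ : ∀ x (hx : x ∈ B₀), π' x = π₀ ⟨x, hx⟩ := fun x hx => by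
    rw [← hπ']
    rfl
  let t : Fin N → Γ := fun x => (ε.symm x).out
  have ht : ∀ (g : Γ) (x : Fin N), (t x)⁻¹ * (g * t ((τ g)⁻¹ x)) ∈ U := by
    intro g x
    have h1 : ε.symm ((τ g)⁻¹ x) = g⁻¹ • ε.symm x := by
      rw [← map_inv]
      have h2 := hτ g⁻¹ (ε.symm x)
      rw [Equiv.apply_symm_apply] at h2
      rw [h2, Equiv.symm_apply_apply]
    show (ε.symm x).out⁻¹ * (g * (ε.symm ((τ g)⁻¹ x)).out) ∈ U
    rw [h1]
    exact IND_mem U g (ε.symm x)
  -- the component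
  let ev : Fin N → (Fin N → Y) →ₗ[F] Y := fun x => (T (t x)⁻¹).comp (LinearMap.proj x)
  have hev : ∀ x f, ev x f = T (t x)⁻¹ (f x) := fun x f => rfl
  let B : Submodule F (Fin N → Y) := ⨅ x, B₀.comap (ev x)
  have hB : ∀ f, f ∈ B ↔ ∀ x, ev x f ∈ B₀ := by
    intro f
    simp only [B, Submodule.mem_iInf, Submodule.mem_comap]
  let P : (Fin N → Y) →ₗ[F] X := ∑ x, (A (t x)).comp (π'.comp (ev x))
  have hP : ∀ f, P f = ∑ x, A (t x) (π' (ev x f)) := by
    intro f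
    simp only [P, LinearMap.sum_apply, LinearMap.comp_apply]
  let Tg : Γ → (Fin N → Y) → (Fin N → Y) := fun g w x => T g (w ((τ g)⁻¹ x))
  have hact : ∀ (g : Γ) (f : Fin N → Y) (x : Fin N),
      ev x (Tg g f) = T ((t x)⁻¹ * (g * t ((τ g)⁻¹ x))) (ev ((τ g)⁻¹ x) f) := by
    intro g f x
    rw [hev, hev]
    show T (t x)⁻¹ (T g (f ((τ g)⁻¹ x))) = _
    rw [← hTm, ← hTm]
    congr 2
    group
  have hst : ∀ (g : Γ), ∀ f ∈ B, Tg g f ∈ B := by
    intro g f hf
    rw [hB] at hf ⊢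
    intro x
    rw [hact]
    exact hB₀ _ (ht g x) _ (hf _)
  refine ⟨B, hst, P.comp B.subtype, ?_, ?_⟩
  · intro p
    constructor
    · rintro ⟨f, rfl⟩
      show P f.1 ∈ M
      rw [hP]
      refine Submodule.sum_mem _ fun x _ => hM _ _ ?_
      have h1 := (hB f.1).1 f.2 x
      rw [hπ _ h1]
      exact (hr _).1 ⟨_, rfl⟩
    · intro hp
      let x₀ : Fin N := ε ((1 : Γ) : Γ ⧸ U)
      obtain ⟨⟨y, hy⟩, hyw⟩ := (hr (A (t x₀)⁻¹ p)).2 (hM _ _ hp)
      let f : Fin N → Y := fun x => if x = x₀ then T (t x₀) y else 0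
      have hf1 : ev x₀ f = y := by
        rw [hev]
        have e : f x₀ = T (t x₀) y := if_pos rfl
        rw [e, ← hTm, inv_mul_cancel, hT1]
      have hf2 : ∀ x, x ≠ x₀ → ev x f = 0 := by
        intro x hx
        rw [hev]
        have e : f x = 0 := if_neg hx
        rw [e, map_zero]
      have hfB : f ∈ B := by
        rw [hB]
        intro x
        by_cases hx : x = x₀
        · rw [hx, hf1]
          exact hy
        · rw [hf2 x hx]
          exact B₀.zero_mem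
      refine ⟨⟨f, hfB⟩, ?_⟩
      show P f = p
      rw [hP, Finset.sum_eq_single x₀]
      · rw [hf1, hπ y hy, hyw, ← hAm, mul_inv_cancel, hA1]
      · intro x _ hx
        rw [hf2 x hx, map_zero, map_zero]
      · intro h
        exact absurd (Finset.mem_univ _) h
  · intro g f
    show P (Tg g f.1) = A g (P f.1)
    rw [hP, hP, map_sum, ← Equiv.sum_comp (τ g)]
    refine Finset.sum_congr rfl fun z _ => ?_
    have hz : (τ g)⁻¹ (τ g z) = z := (τ g).symm_apply_apply z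
    obtain ⟨x, hx⟩ : ∃ x, x = τ g z := ⟨_, rfl⟩
    rw [← hx] at hz ⊢
    have hfz : ev z f.1 ∈ B₀ := (hB f.1).1 f.2 z
    have hu : (t x)⁻¹ * (g * t z) ∈ U := by
      have := ht g x
      rwa [hz] at this
    rw [hact, hz, hπ _ (hB₀ _ hu _ hfz)]
    have h1 := he _ hu ⟨_, hfz⟩
    rw [h1, hπ _ hfz, ← hAm, ← hAm, mul_inv_cancel_left]

end ind

section geom

variable {F : Type*} [Field F] {Γ : Type*} [Group Γ] {m : Type*} [Fintype m] [DecidableEq m]

theorem tens_one (W : Γ →* Matrix m m F) (a b : ℕ) : tens W a b 1 = 1 := by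
  exact (Pool.Agent.DS.tensHom W a b).map_one

/-- the action on a direct sum of tensor constructions -/
noncomputable def sumT (W : Γ →* Matrix m m F) {N : ℕ} (a b : Fin N → ℕ) (g : Γ) :
    ((j : Fin N) → (Fin (a j) → m) × (Fin (b j) → m) → F) →ₗ[F]
      ((j : Fin N) → (Fin (a j) → m) × (Fin (b j) → m) → F) where
  toFun y := fun j => tens W (a j) (b j) g *ᵥ y j
  map_add' y z := by
    ext1 j
    show tens W (a j) (b j) g *ᵥ (y j + z j) = _
    rw [Matrix.mulVec_add]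
    rfl
  map_smul' c y := by
    ext1 j
    show tens W (a j) (b j) g *ᵥ (c • y j) = _
    rw [Matrix.mulVec_smul]
    rfl

theorem sumT_one (W : Γ →* Matrix m m F) {N : ℕ} (a b : Fin N → ℕ)
    (y : (j : Fin N) → (Fin (a j) → m) × (Fin (b j) → m) → F) : sumT W a b 1 y = y := by
  ext1 j
  show tens W (a j) (b j) 1 *ᵥ y j = y j
  rw [tens_one, Matrix.one_mulVec]

theorem sumT_mul (W : Γ →* Matrix m m F) {N : ℕ} (a b : Fin N → ℕ) (g h : Γ)
    (y : (j : Fin N) → (Fin (a j) → m) × (Fin (b j) → m) → F) :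
    sumT W a b (g * h) y = sumT W a b g (sumT W a b h y) := by
  ext1 j
  show tens W (a j) (b j) (g * h) *ᵥ y j = tens W (a j) (b j) g *ᵥ (tens W (a j) (b j) h *ᵥ y j)
  rw [tens_mul, Matrix.mulVec_mulVec]

variable {I : Type*} {n : I → ℕ} (V : (i : I) → Γ →* Matrix (Fin (n i)) (Fin (n i)) F) {r : ℕ}
  (ρ : Fin r → Γ →* Matrix (Fin 2) (Fin 2) F)

/-- the permutation representation on the cosets of an open subgroup -/
theorem exists_perm [TopologicalSpace Γ] [IsTopologicalGroup Γ] [CompactSpace Γ]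
    (U : Subgroup Γ) (hU : IsOpen (U : Set Γ)) : ∃ (N : ℕ) (ε : (Γ ⧸ U) ≃ Fin N)
      (τ : Γ →* Equiv.Perm (Fin N)), (∀ g x, τ g (ε x) = ε (g • x)) ∧
      IsOpen (τ.ker : Set Γ) := by
  classical
  have hfin : Finite (Γ ⧸ U) := U.quotient_finite_of_isOpen hU
  let inst : Fintype (Γ ⧸ U) := Fintype.ofFinite _
  let e : (Γ ⧸ U) ≃ Fin (Fintype.card (Γ ⧸ U)) := Fintype.equivFin _
  let τ : Γ →* Equiv.Perm (Fin (Fintype.card (Γ ⧸ U))) :=
    (e.permCongrHom : Equiv.Perm (Γ ⧸ U) ≃* _).toMonoidHom.comp (MulAction.toPermHom Γ (Γ ⧸ U))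
  have hτ : ∀ g y, τ g y = e (g • e.symm y) := fun g y => rfl
  refine ⟨Fintype.card (Γ ⧸ U), e, τ, fun g x => by rw [hτ, Equiv.symm_apply_apply], ?_⟩
  have h2 : (τ.ker : Set Γ) = ⋂ x : Γ ⧸ U, {g : Γ | x.out⁻¹ * (g * x.out) ∈ U} := by
    ext g
    rw [SetLike.mem_coe, MonoidHom.mem_ker, Set.mem_iInter]
    have h3 : ∀ x : Γ ⧸ U, g • x = x ↔ x.out⁻¹ * (g * x.out) ∈ U := by
      intro x
      rw [← QuotientGroup.eq, QuotientGroup.out_eq']
      have h4 : ((g * x.out : Γ) : Γ ⧸ U) = g • ((x.out : Γ) : Γ ⧸ U) := rfl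
      rw [h4, QuotientGroup.out_eq']
      exact eq_comm
    constructor
    · intro hg x
      apply (h3 x).1
      have h5 := hτ g (e x)
      rw [hg, Equiv.symm_apply_apply] at h5
      exact (e.injective h5).symm
    · intro hg
      ext y
      have h5 := (h3 (e.symm y)).2 (hg (e.symm y))
      rw [hτ, h5, Equiv.apply_symm_apply]
      rfl
  rw [h2]
  apply isOpen_iInter_of_finite
  intro x
  have h6 : Continuous fun g : Γ => x.out⁻¹ * (g * x.out) := by fun_prop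
  exact hU.preimage h6

theorem symGeom_of_symArises [TopologicalSpace Γ] [IsTopologicalGroup Γ] [CompactSpace Γ]
    (e : Fin r → ℕ) (h : SymArises V ρ e) : SymGeom V ρ e := by
  obtain ⟨U, s, σ, N, a, b, B, hB, π, hU, hπ, heq⟩ := h
  obtain ⟨M, ε, τ, hτ, hker⟩ := exists_perm U hU
  have hA1 : ∀ y, (act ρ 1).toLinearMap y = y := fun y => by
    have h1 := congrArg (fun f : _ →ₐ[F] _ => f y) (act_one ρ)
    exact h1
  have hAm : ∀ g h y, (act ρ (g * h)).toLinearMap y =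
      (act ρ g).toLinearMap ((act ρ h).toLinearMap y) := fun g h y => by
    have h1 := congrArg (fun f : _ →ₐ[F] _ => f y) (act_mul ρ g h)
    exact h1
  obtain ⟨B', hB', π', hπ', heq'⟩ := IND2 (sumT (dsF V σ) a b) (sumT_one _ a b)
    (sumT_mul _ a b) (fun g => (act ρ g).toLinearMap) hA1 hAm (MultiHom F e)
    (fun g p hp => (PCO ρ e).2.1 g p hp) U B (fun u hu x hx => hB u hu x hx) π hπ
    (fun u hu x => heq u hu x) M ε τ hτ
  exact ⟨s, σ, N, a, b, M, τ, B', hB', π', hker, hπ', heq'⟩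

/-- coefficient functions of a geometric representation -/
theorem coef_of_symGeom [TopologicalSpace Γ] (e : Fin r → ℕ) (h : SymGeom V ρ e) :
    ∃ (s : ℕ) (σ : Fin s → I) (U : Subgroup Γ), IsOpen (U : Set Γ) ∧
      ∀ (l : MvPolynomial (Fin r × Fin 2) F →ₗ[F] F), ∀ p ∈ MultiHom F e,
        (fun u : U => l (act (fun k => (ρ k).comp U.subtype) u p)) ∈
          alg ((dsF V σ).comp U.subtype) := by
  classical
  obtain ⟨s, σ, N, a, b, M, τ, B, hB, π, hker, hπ, heq⟩ := h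
  refine ⟨s, σ, τ.ker, hker, fun l p hp => ?_⟩
  obtain ⟨w, rfl⟩ := (hπ p).2 hp
  obtain ⟨L, hL⟩ := LinearMap.exists_extend (l.comp π)
  have hL' : ∀ (y : Fin M → (j : Fin N) →
      (Fin (a j) → Σ i : Fin s, Fin (n (σ i))) × (Fin (b j) → Σ i : Fin s, Fin (n (σ i))) → F)
      (hy : y ∈ B), L y = l (π ⟨y, hy⟩) := fun y hy => LinearMap.congr_fun hL ⟨y, hy⟩
  -- on the kernel the action is the one on the values
  have h1 : ∀ u : τ.ker, l (act (fun k => (ρ k).comp τ.ker.subtype) u (π w)) =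
      ∑ x : Fin M, L (Pi.single x (sumT (dsF V σ) a b u.1 (w.1 x))) := by
    intro u
    have hu : τ u.1 = 1 := u.2
    have h2 : (fun x j => tens (dirSum fun i => V (σ i)) (a j) (b j) u.1 *ᵥ
        w.1 ((τ u.1)⁻¹ x) j) = ∑ x : Fin M, Pi.single x (sumT (dsF V σ) a b u.1 (w.1 x)) := by
      rw [Finset.univ_sum_single fun x => sumT (dsF V σ) a b u.1 (w.1 x)]
      funext x
      rw [hu]
      rfl
    have h3 := heq u.1 w
    rw [act_restrict, ← h3, ← hL' _ (hB u.1 w.1 w.2), h2, map_sum]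
  have h4 : (fun u : τ.ker => l (act (fun k => (ρ k).comp τ.ker.subtype) u (π w))) =
      ∑ x : Fin M, fun u : τ.ker => L (Pi.single x (sumT (dsF V σ) a b u.1 (w.1 x))) := by
    funext u
    rw [h1, Finset.sum_apply]
  rw [h4]
  refine Subalgebra.sum_mem _ fun x _ => ?_
  exact SQC ((dsF V σ).comp τ.ker.subtype) (fun u => sumT (dsF V σ) a b u.1) N a b ⊤
    (fun _ _ _ => Submodule.mem_top) (Submodule.subtype ⊤) (fun _ _ => rfl)
    (L.comp (LinearMap.single F (fun _ : Fin M => (j : Fin N) →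
      (Fin (a j) → Σ i : Fin s, Fin (n (σ i))) × (Fin (b j) → Σ i : Fin s, Fin (n (σ i))) → F)
      x)) ⟨w.1 x, Submodule.mem_top⟩

end geom

end Pool.Agent.TY
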