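import Mathlib
import Pool.Agent.helper10.TY.Asm2
import Pool.Agent.helper10.TY.Ind

/-!
# MP_2e0e07_nt, project T: assembly, the relations and the final theorem
-/

set_option autoImplicit false

namespace Pool.Agent.TY

open Matrix Polynomial Pool.Agent.GO Pool.Agent.AR Pool.Agent.RG MeasureTheory

universe u v w x y

theorem symGeom_of_LA {F : Type*} [Field F] {Γ : Type*} [Group Γ] [TopologicalSpace Γ]
    [IsTopologicalGroup Γ] [CompactSpace Γ] {I : Type*} {n : I → ℕ}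
    (V : (i : I) → Γ →* Matrix (Fin (n i)) (Fin (n i)) F) {r : ℕ}
    (ρ : Fin r → Γ →* Matrix (Fin 2) (Fin 2) F) (e : Fin r → ℕ) (h : LA V ρ e) :
    SymGeom V ρ e := symGeom_of_symArises V ρ e (symArises_of_LA V ρ e h)

section relations

variable {Γ : Type u} {Place : Type x} {E : Type w} {F : Type v} {I : Type y} [Group Γ]
  [TopologicalSpace Γ] [IsTopologicalGroup Γ] [CompactSpace Γ] [MeasurableSpace Γ]
  [BorelSpace Γ] (μ : Measure Γ) [μ.IsHaarMeasure] (frob : Place → Set Γ) [Field E] [Field F]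
  [IsAlgClosed F] [CharZero F] [TopologicalSpace F] [IsTopologicalRing F] [T2Space F]
  {n : I → ℕ} (P : I → Place → E[X]) {r : ℕ} (Q : Fin r → Place → E[X])
  (ι : E →+* F) (V : (i : I) → Γ →* Matrix (Fin (n i)) (Fin (n i)) F)
  (ρ : Fin r → Γ →* Matrix (Fin 2) (Fin 2) F)

/-- from a relation for `a_k` to `ad0 (ρ k)` -/
theorem ad0_of_hasRel (hR : IsReal frob P Q ι V ρ) (k : Fin r)
    (h : HasRel μ frob P fun v => -(Q k v).coeff 1) :
    ∃ (s : ℕ) (σ : Fin s → I) (U : Subgroup Γ), IsOpen (U : Set Γ) ∧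
      ∀ i j, (fun u : U => ad0 ((ρ k).comp U.subtype) u i j) ∈
        alg ((dsF V σ).comp U.subtype) := by
  obtain ⟨s, σ, S, Φ, hS, hΦ⟩ := h
  obtain ⟨U, hU, -, hcoef⟩ := ad0_of_relation μ frob (fun i => P (σ i)) (Q k) S hS Φ hΦ ι
    (fun i => V (σ i)) (ρ k) (real_single frob P Q ι V ρ hR σ k)
  exact ⟨s, σ, U, hU, hcoef⟩

/-- from `ad0 (ρ k)` to a relation for `a_k` -/
theorem hasRel_of_ad0 (hd : DenseIn frob ⊤ Set.univ) (hR : IsReal frob P Q ι V ρ) (k : Fin r)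
    {s : ℕ} (σ : Fin s → I)
    (hk : ∃ i ∈ Set.range σ, ∀ v, P i v = X - C ((Q k v).coeff 0))
    (U : Subgroup Γ) (hU : IsOpen (U : Set Γ))
    (h : ∀ i j, (fun u : U => ad0 ((ρ k).comp U.subtype) u i j) ∈
      alg ((dsF V σ).comp U.subtype)) :
    HasRel μ frob P fun v => -(Q k v).coeff 1 := by
  obtain ⟨_, ⟨i, rfl⟩, hi⟩ := hk
  have hR' := real_single frob P Q ι V ρ hR σ k
  have hSI : SI (ρ k) := SI_of_open (ρ k) hR'.cont hR'.irr
  have hfi : U.FiniteIndex := by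
    have := Subgroup.quotient_finite_of_isOpen U hU
    exact Subgroup.finiteIndex_of_finite_quotient
  obtain ⟨a, b, hab⟩ := adSubquotient_of_coef (dsF V σ) (ρ k) U (hSI.restrict _ U hfi) h
  obtain ⟨S, Φ, hS, hΦ⟩ := rel_of_ad μ frob (fun i => P (σ i)) (Q k) i hi
    (nonNeglOpen_of_dense μ frob hd) ι (fun i => V (σ i)) (ρ k) hR'.compV hR'.comp U hU a b hab
  exact ⟨s, σ, S, Φ, hS, hΦ⟩

/-- from the spaces of functions to a relation sensitive to the sign -/
theorem hasSignRel_of_LL (hd : DenseIn frob ⊤ Set.univ) (hR : IsReal frob P Q ι V ρ)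
    (c : Finset (Fin r)) {s : ℕ} (σ : Fin s → I) (U : Subgroup Γ) (hU : IsOpen (U : Set Γ))
    (h : ∀ l ∈ LL ρ (ind c), l ∈ AU (dsF V σ) U) :
    HasSignRel μ frob P fun v => ∏ k ∈ c, -(Q k v).coeff 1 := by
  obtain ⟨N, a, b, B, hB, π, hπ, heq⟩ := data_of_LL ρ (dsF V σ) U (ind c) h
  obtain ⟨S, Φ, hS, hΦ⟩ := REL SYM MON1 HCT μ frob hd (fun i => P (σ i)) Q ι
    (fun i => V (σ i)) ρ (fun i => hR.contV (σ i)) hR.cont (fun i => hR.compV (σ i)) hR.comp c U
    hU N a b (fun u hu γ hγ => EVC EIG (dsF V σ) ρ c u N a b B (fun x hx => hB u hu x hx) π hπ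
      (fun x => heq u hu x) γ hγ)
  exact ⟨s, σ, S, Φ, hS, hΦ⟩

/-- from a relation sensitive to the sign to the spaces of functions -/
theorem LL_of_hasSignRel (hR : IsReal frob P Q ι V ρ) (c : Finset (Fin r))
    (h : HasSignRel μ frob P fun v => ∏ k ∈ c, -(Q k v).coeff 1)
    {s : ℕ} (σ : Fin s → I) (U : Subgroup Γ) (hU : IsOpen (U : Set Γ))
    (hpair : ∀ k ∈ c, PairIn V ρ σ U k) :
    ∃ (s' : ℕ) (σ' : Fin s' → I) (U' : Subgroup Γ), IsOpen (U' : Set Γ) ∧ U' ≤ U ∧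
      Set.range σ ⊆ Set.range σ' ∧ ∀ l ∈ LL ρ (ind c), l ∈ AU (dsF V σ') U' := by
  classical
  obtain ⟨s₁, σ₁, S, Φ, hS, hΦ⟩ := h
  obtain ⟨s', σ', hσ'⟩ := exists_range ((Set.finite_range σ).union (Set.finite_range σ₁))
  have h1 : Set.range σ ⊆ Set.range σ' := by rw [hσ']; exact Set.subset_union_left
  have h2 : Set.range σ₁ ⊆ Set.range σ' := by rw [hσ']; exact Set.subset_union_right
  have hmono := alg_dsF_mono V σ₁ σ' h2
  choose TV hTV hTV' using fun i => hR.compV (σ₁ i)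
  choose Tρ hTρ hTρ' using hR.comp
  set T : Set Place := (⋃ i, TV i) ∪ (⋃ k, Tρ k) with hT
  have hTfin : T.Finite := (Set.finite_iUnion hTV).union (Set.finite_iUnion hTρ)
  let cf : Fin s₁ × ℕ → alg (dsF V σ') := fun k =>
    ⟨fun g => (V (σ₁ k.1) g).charpoly.coeff k.2,
      hmono (charcoeff_mem (fun i => V (σ₁ i)) k.1 k.2)⟩
  let θ : MvPolynomial (Fin s₁ × ℕ) E →+* alg (dsF V σ') :=
    MvPolynomial.eval₂Hom ((algebraMap F (alg (dsF V σ'))).comp ι) cf
  have hθ : ∀ v, v ∉ T → ∀ s ∈ frob v,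
      ((evG (dsF V σ') s : alg (dsF V σ') →ₐ[F] F) : alg (dsF V σ') →+* F).comp θ =
        ι.comp (MvPolynomial.eval fun k => (P (σ₁ k.1) v).coeff k.2) := by
    intro v hv s hs
    apply MvPolynomial.ringHom_ext
    · intro x
      simp only [RingHom.comp_apply, θ, MvPolynomial.coe_eval₂Hom, MvPolynomial.eval₂_C,
        MvPolynomial.eval_C]
      exact AlgHom.commutes (evG (dsF V σ') s) (ι x)
    · intro k
      simp only [RingHom.comp_apply, θ, MvPolynomial.coe_eval₂Hom, MvPolynomial.eval₂_X,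
        MvPolynomial.eval_X]
      have h1 : v ∉ TV k.1 := fun h => hv (Or.inl (Set.mem_iUnion.mpr ⟨k.1, h⟩))
      show (V (σ₁ k.1) s).charpoly.coeff k.2 = _
      rw [hTV' k.1 v h1 s hs, Polynomial.coeff_map]
  obtain ⟨U', hU', hle, hl⟩ := SGN μ (dsF V σ')
    (dirSum_continuous _ fun i => hR.contV (σ' i)) ρ hR.cont c U hU
    (fun k hk => (hpair k hk).mono V ρ h1 le_rfl) (⋃ v ∈ S \ T, frob v) (by
      intro C hC hC0
      obtain ⟨v, hvS, hvT, s, hs, hsC⟩ := hS C T hC hC0 hTfin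
      refine ⟨s, ?_, hsC⟩
      simp only [Set.mem_iUnion]
      exact ⟨v, ⟨hvS, hvT⟩, hs⟩) (Φ.map θ) (by
      intro s hs
      simp only [Set.mem_iUnion] at hs
      obtain ⟨v, ⟨hvS, hvT⟩, hs⟩ := hs
      obtain ⟨h3, h4⟩ := hΦ v hvS
      have h5 : ∏ k ∈ c, (ρ k s).trace = ι (∏ k ∈ c, -(Q k v).coeff 1) := by
        rw [map_prod]
        refine Finset.prod_congr rfl fun k _ => ?_
        exact (Pool.Agent.DS.trace_of_charpoly ι
          (hTρ' k v (fun h => hvT (Or.inr (Set.mem_iUnion.mpr ⟨k, h⟩))) s hs)).1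
      rw [Polynomial.map_map, hθ v hvT s hs, ← Polynomial.map_map, h5]
      refine ⟨h3.map, ?_⟩
      rw [← map_neg]
      intro h6
      apply h4
      rw [Polynomial.IsRoot, Polynomial.eval_map, Polynomial.eval₂_at_apply] at h6
      exact (map_eq_zero_iff ι ι.injective).mp h6)
  exact ⟨s', σ', U', hU', hle, h1, hl⟩

/-- the criterion -/
def Crit (e : Fin r → ℕ) : Prop :=
  (∀ k, e k ≠ 0 → HasRel μ frob P fun v => -(Q k v).coeff 1) ∧
    HasSignRel μ frob P fun v => ∏ k with Odd (e k), -(Q k v).coeff 1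

theorem LA_of_crit (hd : DenseIn frob ⊤ Set.univ)
    (hdet : ∀ k, ∃ i, ∀ v, P i v = X - C ((Q k v).coeff 0))
    (hR : IsReal frob P Q ι V ρ) (e : Fin r → ℕ) (h : Crit μ frob P Q e) : LA V ρ e := by
  classical
  obtain ⟨hrel, hsign⟩ := h
  choose i₀ hi₀ using hdet
  -- data for every index
  have h1 : ∀ k, ∃ (s : ℕ) (σ : Fin s → I) (U : Subgroup Γ), IsOpen (U : Set Γ) ∧
      (e k ≠ 0 → ∀ i j, (fun u : U => ad0 ((ρ k).comp U.subtype) u i j) ∈
        alg ((dsF V σ).comp U.subtype)) := by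
    intro k
    by_cases hk : e k = 0
    · exact ⟨0, Fin.elim0, ⊤, isOpen_univ, fun h => absurd hk h⟩
    · obtain ⟨s, σ, U, hU, h⟩ := ad0_of_hasRel μ frob P Q ι V ρ hR k (hrel k hk)
      exact ⟨s, σ, U, hU, fun _ => h⟩
  choose s σ U hU had using h1
  obtain ⟨s', σ', hσ'⟩ := exists_range
    ((Set.finite_iUnion fun k => Set.finite_range (σ k)).union (Set.finite_range i₀))
  have h2 : ∀ k, Set.range (σ k) ⊆ Set.range σ' := by
    intro k
    rw [hσ']
    exact (Set.subset_iUnion (fun k => Set.range (σ k)) k).trans Set.subset_union_left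
  have h3 : ∀ k, i₀ k ∈ Set.range σ' := fun k => by rw [hσ']; exact Or.inr ⟨k, rfl⟩
  let U' : Subgroup Γ := ⨅ k, U k
  have hU' : IsOpen (U' : Set Γ) := by
    have : (U' : Set Γ) = ⋂ k, (U k : Set Γ) := by
      show ((⨅ k, U k : Subgroup Γ) : Set Γ) = _
      rw [Subgroup.coe_iInf]
    rw [this]
    exact isOpen_iInter_of_finite hU
  have hpair : ∀ k, e k ≠ 0 → PairIn V ρ σ' U' k := by
    intro k hk
    have h4 : ∀ i j, (fun u : U k => ad0 ((ρ k).comp (U k).subtype) u i j) ∈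
        alg ((dsF V σ').comp (U k).subtype) := fun i j =>
      alg_restrict_mono _ _ (alg_dsF_mono V (σ k) σ' (h2 k)) (U k) (had k hk i j)
    obtain ⟨h5, -, h6⟩ := ADP ((dsF V σ').comp (U k).subtype) ((ρ k).comp (U k).subtype)
    have h7 : (fun u : U k => (((ρ k).comp (U k).subtype) u).det) ∈
        alg ((dsF V σ').comp (U k).subtype) :=
      res_mem (dsF V σ') (U k) (det_mem_dsF frob P Q ι V ρ hd hR σ' k ⟨i₀ k, h3 k, hi₀ k⟩)
    have h8 : PairIn V ρ σ' (U k) k := fun i j i' j' => h6 h7 (h5 h4) i j i' j'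
    exact h8.mono V ρ le_rfl (iInf_le _ k)
  obtain ⟨s'', σ'', U'', hU'', hle, hr, hl⟩ := LL_of_hasSignRel μ frob P Q ι V ρ hR (par e)
    hsign σ' U' hU' (fun k hk => hpair k (by
      intro h0
      have h9 := (Finset.mem_filter.1 hk).2
      rw [h0] at h9
      exact absurd h9 (by decide)))
  exact ⟨s'', σ'', U'', hU'', (LL_par_AU V ρ σ'' U'' e fun k hk =>
    (hpair k hk).mono V ρ hr hle).2 hl⟩

theorem crit_of_symGeom (hd : DenseIn frob ⊤ Set.univ)
    (hdet : ∀ k, ∃ i, ∀ v, P i v = X - C ((Q k v).coeff 0))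
    (hR : IsReal frob P Q ι V ρ) (e : Fin r → ℕ) (h : SymGeom V ρ e) :
    Crit μ frob P Q e := by
  obtain ⟨s, σ, U, hU, hi, hk, hl⟩ := data_of_coef frob P Q ι V ρ hd hdet hR e (coef_of_symGeom V ρ e h)
  refine ⟨fun k hk' => hasRel_of_ad0 μ frob P Q ι V ρ hd hR k σ (hi k) U hU (hk k hk').2, ?_⟩
  exact hasSignRel_of_LL μ frob P Q ι V ρ hd hR (par e) σ U hU
    ((LL_par_AU V ρ σ U e fun k hk' => (hk k hk').1).1 hl)

theorem symGeom_iff (hd : DenseIn frob ⊤ Set.univ)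
    (hdet : ∀ k, ∃ i, ∀ v, P i v = X - C ((Q k v).coeff 0))
    (hR : IsReal frob P Q ι V ρ) (e : Fin r → ℕ) : SymGeom V ρ e ↔ Crit μ frob P Q e :=
  ⟨crit_of_symGeom μ frob P Q ι V ρ hd hdet hR e,
    fun h => symGeom_of_LA V ρ e (LA_of_crit μ frob P Q ι V ρ hd hdet hR e h)⟩

theorem symGeom_add (hd : DenseIn frob ⊤ Set.univ)
    (hdet : ∀ k, ∃ i, ∀ v, P i v = X - C ((Q k v).coeff 0))
    (hR : IsReal frob P Q ι V ρ) (e e' : Fin r → ℕ) (h : SymGeom V ρ e)
    (h' : SymGeom V ρ e') : SymGeom V ρ (e + e') := by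
  obtain ⟨s, σ, U, hU, -, -, hl⟩ := data_of_coef frob P Q ι V ρ hd hdet hR e (coef_of_symGeom V ρ e h)
  obtain ⟨s', σ', U', hU', -, -, hl'⟩ := data_of_coef frob P Q ι V ρ hd hdet hR e' (coef_of_symGeom V ρ e' h')
  exact symGeom_of_LA V ρ _ (LA_add V ρ e e' ⟨s, σ, U, hU, hl⟩ ⟨s', σ', U', hU', hl'⟩)

end relations

section code

variable {r : ℕ}

theorem zmod_ne_zero (a : ℕ) : (a : ZMod 2) ≠ 0 ↔ Odd a := by
  rw [Ne, ZMod.natCast_eq_zero_iff_even, Nat.not_even_iff_odd]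

end code

/-- The final theorem. -/
def FINAL2_stmt : Prop := ∀ {Γ : Type u} {Place : Type x} {E : Type w} {I : Type y} [Group Γ]
  [TopologicalSpace Γ] [IsTopologicalGroup Γ] [CompactSpace Γ] [MeasurableSpace Γ]
  [BorelSpace Γ] (μ : Measure Γ)
  [μ.IsHaarMeasure] (frob : Place → Set Γ) (_ : DenseIn frob ⊤ Set.univ) [Field E]
  {n : I → ℕ} (P : I → Place → E[X]) {r : ℕ} (Q : Fin r → Place → E[X])
  (_ : ∀ k, ∃ i, ∀ v, P i v = X - C ((Q k v).coeff 0)),
  ∃ (J : Set (Fin r)) (C : AddSubgroup (Fin r → ZMod 2)),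
    ∀ {F : Type v} [Field F] [IsAlgClosed F] [CharZero F] [TopologicalSpace F]
      [IsTopologicalRing F] [T2Space F] (ι : E →+* F)
      (V : (i : I) → Γ →* Matrix (Fin (n i)) (Fin (n i)) F)
      (ρ : Fin r → Γ →* Matrix (Fin 2) (Fin 2) F), IsReal frob P Q ι V ρ →
    ∀ e : Fin r → ℕ,
      (SymGeom V ρ e ↔ (∀ k ∉ J, e k = 0) ∧ (fun k => (e k : ZMod 2)) ∈ C) ∧
      (SymGeom V ρ e ↔
        (∀ k, e k ≠ 0 → HasRel μ frob P fun v => -(Q k v).coeff 1) ∧
        HasSignRel μ frob P fun v => ∏ k with Odd (e k), -(Q k v).coeff 1)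

theorem FINAL : FINAL2_stmt.{u, v, w, x, y} := by
  intro Γ Place E I _ _ _ _ _ _ μ _ frob hd _ n P r Q hdet
  classical
  let J : Set (Fin r) := {k | HasRel μ frob P fun v => -(Q k v).coeff 1}
  let C₀ : Set (Fin r → ZMod 2) := {c | (∀ k, c k ≠ 0 → k ∈ J) ∧
    HasSignRel μ frob P fun v => ∏ k with c k ≠ 0, -(Q k v).coeff 1}
  have hC₀ : ∀ e : Fin r → ℕ, (∀ k, e k ≠ 0 → k ∈ J) →
      ((fun k => (e k : ZMod 2)) ∈ C₀ ↔ Crit μ frob P Q e) := by
    intro e he
    have h1 : (Finset.univ.filter fun k => (e k : ZMod 2) ≠ 0) =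
        Finset.univ.filter fun k => Odd (e k) :=
      Finset.filter_congr fun k _ => zmod_ne_zero (e k)
    constructor
    · rintro ⟨-, h2⟩
      rw [h1] at h2
      exact ⟨he, h2⟩
    · rintro ⟨-, h2⟩
      refine ⟨fun k hk => he k ?_, ?_⟩
      · intro h0
        apply hk
        show ((e k : ℕ) : ZMod 2) = 0
        rw [h0, Nat.cast_zero]
      · rw [h1]
        exact h2
  -- the main equivalences, given `C` with the right elements
  have main : ∀ (C : AddSubgroup (Fin r → ZMod 2)), (∀ c, c ∈ C ↔ c ∈ C₀) →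
      ∀ {F : Type v} [Field F] [IsAlgClosed F] [CharZero F] [TopologicalSpace F]
      [IsTopologicalRing F] [T2Space F] (ι : E →+* F)
      (V : (i : I) → Γ →* Matrix (Fin (n i)) (Fin (n i)) F)
      (ρ : Fin r → Γ →* Matrix (Fin 2) (Fin 2) F), IsReal frob P Q ι V ρ →
      ∀ e : Fin r → ℕ,
      (SymGeom V ρ e ↔ (∀ k ∉ J, e k = 0) ∧ (fun k => (e k : ZMod 2)) ∈ C) ∧
      (SymGeom V ρ e ↔
        (∀ k, e k ≠ 0 → HasRel μ frob P fun v => -(Q k v).coeff 1) ∧
        HasSignRel μ frob P fun v => ∏ k with Odd (e k), -(Q k v).coeff 1) := by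
    intro C hC F _ _ _ _ _ _ ι V ρ hR e
    have h1 := symGeom_iff μ frob P Q ι V ρ hd hdet hR e
    refine ⟨?_, h1⟩
    rw [h1, hC]
    constructor
    · intro h2
      have h3 : ∀ k, e k ≠ 0 → k ∈ J := h2.1
      exact ⟨fun k hk => by_contra fun h4 => hk (h3 k h4), (hC₀ e h3).2 h2⟩
    · rintro ⟨h2, h3⟩
      exact (hC₀ e fun k hk => by_contra fun h4 => hk (h2 k h4)).1 h3
  by_cases hex : ∃ (F : Type v) (_ : Field F) (_ : IsAlgClosed F) (_ : CharZero F)
      (_ : TopologicalSpace F) (_ : IsTopologicalRing F) (_ : T2Space F) (ι : E →+* F)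
      (V : (i : I) → Γ →* Matrix (Fin (n i)) (Fin (n i)) F)
      (ρ : Fin r → Γ →* Matrix (Fin 2) (Fin 2) F), IsReal frob P Q ι V ρ
  · obtain ⟨F, _, _, _, _, _, _, ι, V, ρ, hR⟩ := hex
    -- lifting a vector of the code
    have hval : ∀ c : Fin r → ZMod 2, (fun k => (((c k).val : ℕ) : ZMod 2)) = c := by
      intro c
      funext k
      exact ZMod.natCast_zmod_val (c k)
    have hsupp : ∀ c : Fin r → ZMod 2, (∀ k, (c k).val ≠ 0 → k ∈ J) ↔ ∀ k, c k ≠ 0 → k ∈ J := by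
      intro c
      refine forall_congr' fun k => ?_
      rw [Ne, Ne, ZMod.val_eq_zero]
    have hmem : ∀ c : Fin r → ZMod 2, c ∈ C₀ ↔ SymGeom V ρ (fun k => (c k).val) := by
      intro c
      rw [symGeom_iff μ frob P Q ι V ρ hd hdet hR]
      constructor
      · intro hc
        have h1 := hC₀ (fun k => (c k).val) ((hsupp c).2 hc.1)
        rw [hval] at h1
        exact h1.1 hc
      · intro hc
        have h1 := hC₀ (fun k => (c k).val) hc.1
        rw [hval] at h1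
        exact h1.2 hc
    let C : AddSubgroup (Fin r → ZMod 2) :=
      { carrier := C₀
        zero_mem' := by
          rw [hmem]
          have h1 : (fun k => ((0 : Fin r → ZMod 2) k).val) = 0 := by
            funext k
            simp
          rw [h1]
          refine symGeom_of_LA V ρ 0 ⟨0, Fin.elim0, ⊤, isOpen_univ, fun l hl => ?_⟩
          have h2 : LL ρ 0 = 1 := by
            unfold LL
            simp
          rw [h2, Submodule.mem_one] at hl
          obtain ⟨a, rfl⟩ := hl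
          exact Subalgebra.algebraMap_mem _ a
        add_mem' := by
          intro c c' hc hc'
          have h1 := symGeom_add frob P Q ι V ρ hd hdet hR (fun k => (c k).val)
            (fun k => (c' k).val) ((hmem c).1 hc) ((hmem c').1 hc')
          have h2 := (symGeom_iff μ frob P Q ι V ρ hd hdet hR _).1 h1
          have h3 := hC₀ ((fun k => (c k).val) + fun k => (c' k).val) h2.1
          have h4 : (fun k => ((((fun k => (c k).val) + fun k => (c' k).val) k : ℕ) : ZMod 2)) =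
              c + c' := by
            funext k
            rw [Pi.add_apply, Nat.cast_add, ZMod.natCast_zmod_val, ZMod.natCast_zmod_val]
            rfl
          rw [h4] at h3
          exact h3.2 h2
        neg_mem' := by
          intro c hc
          have h1 : -c = c := by
            funext k
            exact ZMod.neg_eq_self_mod_two (c k)
          rw [h1]
          exact hc }
    exact ⟨J, C, main C fun c => Iff.rfl⟩
  · refine ⟨J, ⊥, ?_⟩
    intro F _ _ _ _ _ _ ι V ρ hR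
    exact absurd ⟨F, _, ‹_›, ‹_›, _, ‹_›, ‹_›, ι, V, ρ, hR⟩ hex

end Pool.Agent.TY
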