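import Mathlib
import Pool.Agent.helper10.TY.Defs2

/-!
# MP_2e0e07_nt, project T (ParityCode): definition of the final statement, in small pieces
-/

set_option autoImplicit false

namespace Pool.Agent.TY

open Matrix Polynomial Pool.Agent.GO Pool.Agent.AR Pool.Agent.RG MeasureTheory

/-- The subspace `S` of `A` with the action `α` of `Γ` is isomorphic to a subquotient of the space
`W` with the action `β`: there are a stable subspace `B` of `W` and an equivariant linear map from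
`B` onto `S`. -/
def IsSubquot {F Γ W A : Type*} [Field F] [AddCommGroup W] [Module F W] [AddCommGroup A]
    [Module F A] (β : Γ → W → W) (α : Γ → A → A) (S : Submodule F A) : Prop :=
  ∃ (B : Submodule F W) (hB : ∀ g, ∀ w ∈ B, β g w ∈ B) (π : B →ₗ[F] A),
    (∀ p, p ∈ Set.range π ↔ p ∈ S) ∧ ∀ g, ∀ w : B, π ⟨β g w.1, hB g w.1 w.2⟩ = α g (π w)

/-- The representation of `Γ` on the direct sum over `j` of the `W^{⊗ a j} ⊗ (W^∨)^{⊗ b j} ⊗ F[Fin M]`,
where `W` is the direct sum of the `V (σ i)` and `Γ` acts on `Fin M` through the permutations `τ`: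
the vectors are the functions `w` on `Fin M` with values in the direct sum over `j` of the
`W^{⊗ a j} ⊗ (W^∨)^{⊗ b j}`, and `(g w)(x) = g (w (τ(g)⁻¹ x))`. -/
def geomAct {F : Type*} [Field F] {Γ : Type*} [Group Γ] {I : Type*} {n : I → ℕ}
    (V : (i : I) → Γ →* Matrix (Fin (n i)) (Fin (n i)) F) {s : ℕ} (σ : Fin s → I) {N : ℕ}
    (a b : Fin N → ℕ) {M : ℕ} (τ : Γ →* Equiv.Perm (Fin M)) (g : Γ)
    (w : Fin M → (j : Fin N) →
      (Fin (a j) → Σ i : Fin s, Fin (n (σ i))) × (Fin (b j) → Σ i : Fin s, Fin (n (σ i))) → F) :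
    Fin M → (j : Fin N) →
      (Fin (a j) → Σ i : Fin s, Fin (n (σ i))) × (Fin (b j) → Σ i : Fin s, Fin (n (σ i))) → F :=
  fun x j => tens (dirSum fun i => V (σ i)) (a j) (b j) g *ᵥ w ((τ g)⁻¹ x) j

/-- The representation `Sym^(e 1) ρ 1 ⊗ ⋯ ⊗ Sym^(e r) ρ r` (`MultiHom F e` with the action `act ρ`)
is a subquotient of a finite direct sum of representations `W^{⊗ a} ⊗ (W^∨)^{⊗ b} ⊗ F[Fin M]`, where
`W` is the direct sum of finitely many of the `V i` and `Γ` acts on `Fin M` through permutations,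
with open kernel. -/
def Arises {F : Type*} [Field F] {Γ : Type*} [Group Γ] [TopologicalSpace Γ] {r : ℕ} {I : Type*}
    {n : I → ℕ} (V : (i : I) → Γ →* Matrix (Fin (n i)) (Fin (n i)) F)
    (ρ : Fin r → Γ →* Matrix (Fin 2) (Fin 2) F) (e : Fin r → ℕ) : Prop :=
  ∃ (s : ℕ) (σ : Fin s → I) (N : ℕ) (a b : Fin N → ℕ) (M : ℕ) (τ : Γ →* Equiv.Perm (Fin M)),
    IsOpen (τ.ker : Set Γ) ∧
      IsSubquot (geomAct V σ a b τ) (fun g p => act ρ g p) (MultiHom F e)

theorem arises_iff {F : Type*} [Field F] {Γ : Type*} [Group Γ] [TopologicalSpace Γ] {r : ℕ}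
    {I : Type*} {n : I → ℕ} (V : (i : I) → Γ →* Matrix (Fin (n i)) (Fin (n i)) F)
    (ρ : Fin r → Γ →* Matrix (Fin 2) (Fin 2) F) (e : Fin r → ℕ) :
    Arises V ρ e ↔ SymGeom V ρ e := by
  constructor
  · rintro ⟨s, σ, N, a, b, M, τ, h1, B, hB, π, h2, h3⟩
    exact ⟨s, σ, N, a, b, M, τ, B, hB, π, h1, h2, h3⟩
  · rintro ⟨s, σ, N, a, b, M, τ, B, hB, π, h1, h2, h3⟩
    exact ⟨s, σ, N, a, b, M, τ, h1, B, hB, π, h2, h3⟩

end Pool.Agent.TY
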